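import Pool.Agent.Lib.MP_7ed9c3_nt.Md.Spec

/-!
# MP_7ed9c3_nt, part Md, M6: the primitive at the edge
-/

set_option autoImplicit false

namespace MP7ed9c3.Md

open NumberField IsDedekindDomain Filter Topology MeasureTheory

/-- the modulus `ω` -/
noncomputable def bdryOm (D ξ : ℝ) : ℝ := D * (2 * ξ - ξ * Real.log ξ)

theorem bdryOm_nonneg {D ξ : ℝ} (hD : 0 ≤ D) (h0 : 0 ≤ ξ) (h1 : ξ ≤ 1) : 0 ≤ bdryOm D ξ := by
  have h2 := Real.log_nonpos h0 h1
  refine mul_nonneg hD ?_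
  nlinarith [mul_nonneg h0 (neg_nonneg.2 h2)]

theorem bdryOm_cont (D : ℝ) : Continuous (bdryOm D) := by
  unfold bdryOm
  have := Real.continuous_mul_log
  fun_prop

theorem bdryOm_zero (D : ℝ) : bdryOm D 0 = 0 := by simp [bdryOm]

theorem bdryOm_deriv (D : ℝ) {ξ : ℝ} (h : 0 < ξ) :
    HasDerivAt (bdryOm D) (D * (1 + Real.log (1 / ξ))) ξ := by
  have h1 : HasDerivAt (fun ξ : ℝ => D * (2 * ξ - ξ * Real.log ξ))
      (D * (2 * 1 - (Real.log ξ + 1))) ξ :=
    (((hasDerivAt_id ξ).const_mul 2).sub (Real.hasDerivAt_mul_log h.ne')).const_mul D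
  have h2 : D * (1 + Real.log (1 / ξ)) = D * (2 * 1 - (Real.log ξ + 1)) := by
    rw [one_div, Real.log_inv]
    ring
  rw [h2]
  exact h1

theorem bdry_line {P₀ f : ℂ → ℂ} (hP : ∀ z : ℂ, 0 < z.re → HasDerivAt P₀ (f z) z) {ξ y : ℝ}
    (h : 0 < ξ) : HasDerivAt (fun ξ : ℝ => P₀ ((ξ : ℂ) + y * Complex.I))
      (f ((ξ : ℂ) + y * Complex.I)) ξ := by
  have h1 : HasDerivAt (fun ξ : ℂ => ξ + y * Complex.I) 1 (ξ : ℂ) :=
    (hasDerivAt_id (ξ : ℂ)).add_const _
  have h2 : HasDerivAt P₀ (f ((ξ : ℂ) + y * Complex.I)) ((ξ : ℂ) + y * Complex.I) :=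
    hP _ (by simpa using h)
  have h3 := (HasDerivAt.comp (ξ : ℂ) h2 h1).comp_ofReal
  simpa using h3

theorem bdry_vline {P₀ f : ℂ → ℂ} (hP : ∀ z : ℂ, 0 < z.re → HasDerivAt P₀ (f z) z) {x τ : ℝ}
    (h : 0 < x) : HasDerivAt (fun τ : ℝ => P₀ ((x : ℂ) + τ * Complex.I))
      (f ((x : ℂ) + τ * Complex.I) * Complex.I) τ := by
  have h1 : HasDerivAt (fun τ : ℂ => (x : ℂ) + τ * Complex.I) Complex.I (τ : ℂ) := by
    have := ((hasDerivAt_id (τ : ℂ)).mul_const Complex.I).const_add (x : ℂ)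
    simpa using this
  have h2 : HasDerivAt P₀ (f ((x : ℂ) + τ * Complex.I)) ((x : ℂ) + τ * Complex.I) :=
    hP _ (by simpa using h)
  exact (HasDerivAt.comp (τ : ℂ) h2 h1).comp_ofReal

theorem bdry_est {P₀ f : ℂ → ℂ} {D : ℝ} (hP : ∀ z : ℂ, 0 < z.re → HasDerivAt P₀ (f z) z)
    (hpt : ∀ z : ℂ, 0 < z.re → z.re ≤ 1 → ‖f z‖ ≤ D * (1 + Real.log (1 / z.re)))
    {x x' : ℝ} (hx : 0 < x) (hxx : x ≤ x') (hx' : x' ≤ 1) (y : ℝ) :
    ‖P₀ ((x' : ℂ) + y * Complex.I) - P₀ ((x : ℂ) + y * Complex.I)‖ ≤ bdryOm D x' - bdryOm D x := by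
  have h1 : ∀ ξ ∈ Set.Icc x x', HasDerivAt
      (fun ξ : ℝ => P₀ ((ξ : ℂ) + y * Complex.I) - P₀ ((x : ℂ) + y * Complex.I))
      (f ((ξ : ℂ) + y * Complex.I)) ξ := fun ξ hξ =>
    (bdry_line hP (hx.trans_le hξ.1)).sub_const _
  have h2 : ∀ ξ ∈ Set.Icc x x', HasDerivAt (fun ξ : ℝ => bdryOm D ξ - bdryOm D x)
      (D * (1 + Real.log (1 / ξ))) ξ := fun ξ hξ =>
    (bdryOm_deriv D (hx.trans_le hξ.1)).sub_const _
  have h3 := image_norm_le_of_norm_deriv_right_le_deriv_boundary'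
    (f := fun ξ : ℝ => P₀ ((ξ : ℂ) + y * Complex.I) - P₀ ((x : ℂ) + y * Complex.I))
    (f' := fun ξ : ℝ => f ((ξ : ℂ) + y * Complex.I)) (a := x) (b := x')
    (fun ξ hξ => (h1 ξ hξ).continuousAt.continuousWithinAt)
    (fun ξ hξ => (h1 ξ ⟨hξ.1, hξ.2.le⟩).hasDerivWithinAt)
    (B := fun ξ : ℝ => bdryOm D ξ - bdryOm D x) (B' := fun ξ : ℝ => D * (1 + Real.log (1 / ξ)))
    (by simp) (fun ξ hξ => (h2 ξ hξ).continuousAt.continuousWithinAt)
    (fun ξ hξ => (h2 ξ ⟨hξ.1, hξ.2.le⟩).hasDerivWithinAt)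
    (fun ξ hξ => by
      have h4 := hpt ((ξ : ℂ) + y * Complex.I) (by simpa using hx.trans_le hξ.1)
        (by simpa using hξ.2.le.trans hx')
      simpa using h4)
    (x := x') ⟨hxx, le_rfl⟩
  exact h3

theorem bdry (h4 : S_Mean) (h5 : S_Prim) : S_Bdry := by
  intro f D ℓ hE
  obtain ⟨P₀, hP⟩ := h5 f hE.diff
  have hD : 0 ≤ D := by
    have h1 := hE.pt 1 (by simp) (by simp)
    simp only [Complex.one_re, one_div, inv_one, Real.log_one, add_zero, mul_one] at h1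
    exact (norm_nonneg _).trans h1
  have hest : ∀ x x' : ℝ, 0 < x → x ≤ x' → x' ≤ 1 → ∀ y : ℝ,
      ‖P₀ ((x' : ℂ) + y * Complex.I) - P₀ ((x : ℂ) + y * Complex.I)‖ ≤ bdryOm D x' := by
    intro x x' hx hxx hx' y
    have h1 := bdry_est hP hE.pt hx hxx hx' y
    have h2 := bdryOm_nonneg hD hx.le (hxx.trans hx')
    linarith
  -- small values of `ω`
  have hsmall : ∀ ε : ℝ, 0 < ε → ∃ η : ℝ, 0 < η ∧ η ≤ 1 ∧ ∀ ξ, 0 ≤ ξ → ξ ≤ η → bdryOm D ξ < ε := by
    intro ε hε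
    have h0 : ContinuousAt (bdryOm D) 0 := (bdryOm_cont D).continuousAt
    obtain ⟨δ, hδ, h2⟩ := Metric.continuousAt_iff.1 h0 ε hε
    refine ⟨min (δ / 2) 1, lt_min (by positivity) one_pos, min_le_right _ _, ?_⟩
    intro ξ hξ0 hξ
    have h3 := @h2 ξ (by
      rw [Real.dist_eq, sub_zero, abs_of_nonneg hξ0]
      have := hξ.trans (min_le_left _ _)
      linarith)
    rw [bdryOm_zero, Real.dist_eq, sub_zero] at h3
    exact (le_abs_self _).trans_lt h3
  -- the limit at the edge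
  have hlim : ∀ y : ℝ, ∃ q : ℂ, Tendsto (fun x : ℝ => P₀ ((x : ℂ) + y * Complex.I)) (𝓝[>] 0)
      (𝓝 q) := by
    intro y
    rw [← cauchy_map_iff_exists_tendsto, Metric.cauchy_iff]
    refine ⟨inferInstance, fun ε hε => ?_⟩
    obtain ⟨η, h0, h1, h2⟩ := hsmall ε hε
    refine ⟨(fun x : ℝ => P₀ ((x : ℂ) + y * Complex.I)) '' Set.Ioo 0 η,
      image_mem_map (Ioo_mem_nhdsGT h0), ?_⟩
    rintro _ ⟨a, ha, rfl⟩ _ ⟨b, hb, rfl⟩
    dsimp only
    rcases le_total a b with hab | hab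
    · rw [dist_comm, dist_eq_norm]
      exact (hest a b ha.1 hab (hb.2.le.trans h1) y).trans_lt (h2 b hb.1.le hb.2.le)
    · rw [dist_eq_norm]
      exact (hest b a hb.1 hab (ha.2.le.trans h1) y).trans_lt (h2 a ha.1.le ha.2.le)
  choose Q hQ using hlim
  have hQest : ∀ (x : ℝ), 0 < x → x ≤ 1 → ∀ y : ℝ,
      ‖P₀ ((x : ℂ) + y * Complex.I) - Q y‖ ≤ bdryOm D x := by
    intro x hx hx1 y
    have h1 : Tendsto (fun ξ : ℝ => ‖P₀ ((x : ℂ) + y * Complex.I) -
        P₀ ((ξ : ℂ) + y * Complex.I)‖) (𝓝[>] 0) (𝓝 ‖P₀ ((x : ℂ) + y * Complex.I) - Q y‖) :=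
      (tendsto_const_nhds.sub (hQ y)).norm
    refine le_of_tendsto h1 ?_
    filter_upwards [Ioo_mem_nhdsGT hx] with ξ hξ
    exact hest ξ x hξ.1 hξ.2.le hx1 y
  let P : ℂ → ℂ := fun z => if 0 < z.re then P₀ z else Q z.im
  have hP1 : ∀ z : ℂ, 0 < z.re → P z = P₀ z := fun z hz => if_pos hz
  have hP0 : ∀ z : ℂ, ¬ 0 < z.re → P z = Q z.im := fun z hz => if_neg hz
  have hPI : ∀ y : ℝ, P (y * Complex.I) = Q y := by
    intro y
    rw [hP0 _ (by simp)]
    simp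
  have hPest : ∀ (z : ℂ) (η : ℝ), 0 ≤ z.re → z.re ≤ η → 0 < η → η ≤ 1 →
      ‖P₀ ((η : ℂ) + z.im * Complex.I) - P z‖ ≤ bdryOm D η := by
    intro z η hz0 hzη hη hη1
    by_cases hz : 0 < z.re
    · rw [hP1 z hz]
      have h1 := hest z.re η hz hzη hη1 z.im
      rwa [Complex.re_add_im] at h1
    · rw [hP0 z hz]
      exact hQest η hη hη1 z.im
  have hopen : IsOpen {z : ℂ | 0 < z.re} := isOpen_lt continuous_const Complex.continuous_re
  have hPder : ∀ z : ℂ, 0 < z.re → HasDerivAt P (f z) z := by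
    intro z hz
    refine (hP z hz).congr_of_eventuallyEq ?_
    filter_upwards [hopen.mem_nhds hz] with w hw
    exact hP1 w hw
  refine ⟨P, ?_, hPder, ?_⟩
  · intro z₀ hz₀
    rcases (show 0 ≤ z₀.re from hz₀).eq_or_lt with h0 | h0
    swap
    · exact (hPder z₀ h0).continuousAt.continuousWithinAt
    · rw [Metric.continuousWithinAt_iff]
      intro ε hε
      obtain ⟨η, hη0, hη1, hη⟩ := hsmall (ε / 3) (by positivity)
      have hc : ContinuousAt (fun τ : ℝ => P₀ ((η : ℂ) + τ * Complex.I)) z₀.im :=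
        (bdry_vline hP hη0).continuousAt
      obtain ⟨δ, hδ0, hδ⟩ := Metric.continuousAt_iff.1 hc (ε / 3) (by positivity)
      refine ⟨min δ η, lt_min hδ0 hη0, ?_⟩
      intro z hz hzd
      have h1 : |z.re - z₀.re| ≤ dist z z₀ := by
        rw [dist_eq_norm, ← Complex.sub_re]
        exact Complex.abs_re_le_norm _
      have h2 : |z.im - z₀.im| ≤ dist z z₀ := by
        rw [dist_eq_norm, ← Complex.sub_im]
        exact Complex.abs_im_le_norm _
      have h3 : z.re ≤ η := by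
        rw [← h0, sub_zero] at h1
        exact (le_abs_self _).trans (h1.trans (hzd.le.trans (min_le_right _ _)))
      have h4 := hδ (x := z.im) (by
        rw [Real.dist_eq]
        exact h2.trans_lt (hzd.trans_le (min_le_left _ _)))
      have h5 := (hPest z η hz h3 hη0 hη1).trans_lt (hη η hη0.le le_rfl)
      have h6 := (hPest z₀ η hz₀ (by rw [← h0]; exact hη0.le) hη0 hη1).trans_lt
        (hη η hη0.le le_rfl)
      rw [dist_eq_norm] at h4 ⊢
      have h7 : P z - P z₀ = -(P₀ ((η : ℂ) + z.im * Complex.I) - P z) +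
          (P₀ ((η : ℂ) + z.im * Complex.I) - P₀ ((η : ℂ) + z₀.im * Complex.I)) +
          (P₀ ((η : ℂ) + z₀.im * Complex.I) - P z₀) := by ring
      rw [h7]
      refine (norm_add₃_le).trans_lt ?_
      rw [norm_neg]
      linarith
  · intro c d hcd
    rw [hPI, hPI]
    obtain ⟨hint, hmean⟩ := h4 f D ℓ hE c d hcd
    have hfc : ∀ x : ℝ, 0 < x → Continuous (fun t : ℝ => f ((x : ℂ) + t * Complex.I)) := by
      intro x hx
      refine hE.diff.continuousOn.comp_continuous (by fun_prop) ?_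
      intro t
      simpa using hx
    have hre : ∀ x : ℝ, 0 < x → (P₀ ((x : ℂ) + d * Complex.I)).im -
        (P₀ ((x : ℂ) + c * Complex.I)).im = ∫ t in c..d, (f ((x : ℂ) + t * Complex.I)).re := by
      intro x hx
      have hi : IntervalIntegrable (fun t : ℝ => f ((x : ℂ) + t * Complex.I) * Complex.I)
          volume c d := ((hfc x hx).mul continuous_const).intervalIntegrable _ _
      have h1 := intervalIntegral.integral_eq_sub_of_hasDerivAt (a := c) (b := d)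
        (f := fun τ : ℝ => P₀ ((x : ℂ) + τ * Complex.I))
        (fun τ _ => bdry_vline hP hx) hi
      have h2 := Complex.imCLM.intervalIntegral_comp_comm hi
      rw [h1] at h2
      simp only [Complex.imCLM_apply, Complex.sub_im] at h2
      rw [← h2]
      refine intervalIntegral.integral_congr fun t _ => ?_
      simp
    have hL : Tendsto (fun x : ℝ => (P₀ ((x : ℂ) + d * Complex.I)).im -
        (P₀ ((x : ℂ) + c * Complex.I)).im) (𝓝[>] 0) (𝓝 ((Q d).im - (Q c).im)) :=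
      ((Complex.continuous_im.tendsto _).comp (hQ d)).sub
        ((Complex.continuous_im.tendsto _).comp (hQ c))
    have hR : Tendsto (fun x : ℝ => (P₀ ((x : ℂ) + d * Complex.I)).im -
        (P₀ ((x : ℂ) + c * Complex.I)).im) (𝓝[>] 0) (𝓝 (∫ t in c..d, ℓ t)) := by
      rw [tendsto_iff_dist_tendsto_zero]
      refine squeeze_zero' (Eventually.of_forall fun _ => dist_nonneg) ?_ hmean
      filter_upwards [self_mem_nhdsWithin] with x hx
      have hx0 : 0 < x := hx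
      have hi : IntervalIntegrable (fun t : ℝ => (f ((x : ℂ) + t * Complex.I)).re) volume c d :=
        (Complex.continuous_re.comp (hfc x hx0)).intervalIntegrable _ _
      rw [hre x hx0, Real.dist_eq, ← intervalIntegral.integral_sub hi hint]
      exact intervalIntegral.abs_integral_le_integral_abs hcd
    exact tendsto_nhds_unique hL hR

end MP7ed9c3.Md
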