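import Pool.Agent.Lib.MP_7ed9c3_nt.Md.Spec

/-!
# MP_7ed9c3_nt, part Md: M3, the logarithm of the L-function of an elliptic curve
-/

set_option autoImplicit false

namespace MP7ed9c3.Md

open NumberField IsDedekindDomain Filter Topology MeasureTheory

theorem convTo_of_conv {K : Type} [Field K] [NumberField K]
    {M : HeightOneSpectrum (𝓞 K) → WeierstrassCurve (𝓞 K)} {t : ℝ}
    (h : Conv M (1 / 4) t) : ∃ l : ℂ, l ≠ 0 ∧ ConvTo M t l ∧
      Tendsto (fun x : ℝ => B6.prodL M (3 / 2 + ((x : ℂ) + t * Complex.I))) (𝓝[>] 0) (𝓝 l) := by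
  obtain ⟨l, hl0, ⟨C, hC⟩, hl⟩ := h
  refine ⟨l, hl0, ?_, B6.radial hl⟩
  unfold ConvTo
  rw [tendsto_iff_norm_sub_tendsto_zero]
  have h1 : Tendsto (fun x : ℕ => C * Real.log x ^ (-(1 / 4) : ℝ)) atTop (𝓝 0) := by
    have h2 : Tendsto (fun x : ℕ => Real.log (x : ℝ)) atTop atTop :=
      Real.tendsto_log_atTop.comp tendsto_natCast_atTop_atTop
    have h3 := ((tendsto_rpow_neg_atTop (y := 1 / 4) (by norm_num)).comp h2).const_mul C
    simpa using h3
  refine squeeze_zero' (Eventually.of_forall fun x => norm_nonneg _) ?_ h1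
  filter_upwards [eventually_ge_atTop 2] with x hx
  exact hC x hx

theorem edgeCurve (m2 : S_LogU) : S_EdgeCurve := by
  intro K _ _ E hE M hM
  classical
  obtain ⟨C, hC⟩ := countPrimes K
  obtain ⟨A, hA⟩ := B6.trace_const existsModel goodDataAll traceBoundAll hE hM
  obtain ⟨f, D, f1, f2, f3, f4⟩ := @m2 (HeightOneSpectrum (𝓞 K)) (fun v => nm v)
    (fun v => tr (M v) v) (fun v => (M v).Δ ∉ v.asIdeal) (fun v => Classical.propDecidable _)
    C A hC (fun v => (traceBoundAll K (M v) v).1) hA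
  obtain ⟨Z, hZ, hZt⟩ := coreAll K E hE (1 / 4) (by norm_num)
  have hZ0 : volume Z = 0 := B6.null_of_dimH hZ
  have hae : ∀ᵐ t : ℝ, t ∉ Z := by
    rw [ae_iff]
    simpa using hZ0
  have hprod : ∀ z : ℂ, 0 < z.re → B6.prodL M (3 / 2 + z) = Complex.exp (f z) := by
    intro z hz
    rw [← f2 z hz]
    unfold B6.prodL
    refine tprod_congr fun v => ?_
    unfold locDen
    exact congrArg _ (B6.eden_inst _ _ _)
  have hconv : ∀ t : ℝ, ∃ l : ℂ, t ∉ Z → (l ≠ 0 ∧ ConvTo M t l ∧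
      Tendsto (fun x : ℝ => Complex.exp (f ((x : ℂ) + t * Complex.I))) (𝓝[>] 0) (𝓝 l)) := by
    intro t
    by_cases ht : t ∈ Z
    · exact ⟨0, fun h => absurd ht h⟩
    · obtain ⟨l, h0, h1, h2⟩ := convTo_of_conv (hZt t ht M hM)
      refine ⟨l, fun _ => ⟨h0, h1, h2.congr' ?_⟩⟩
      filter_upwards [self_mem_nhdsWithin] with x hx
      have hx' : 0 < x := hx
      exact hprod _ (by simpa using hx')
  choose l hl using hconv
  refine ⟨f, D, fun t => Real.log ‖l t‖, ⟨f1, f3, f4, ?_⟩, hprod, ?_⟩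
  · filter_upwards [hae] with t ht
    obtain ⟨h0, h1, h2⟩ := hl t ht
    have h3 := ((Real.continuousAt_log (norm_ne_zero_iff.2 h0)).tendsto).comp h2.norm
    refine h3.congr fun x => ?_
    simp only [Function.comp_apply]
    rw [Complex.norm_exp, Real.log_exp]
  · filter_upwards [hae] with t ht
    obtain ⟨h0, h1, h2⟩ := hl t ht
    exact ⟨l t, h0, (Real.exp_log (norm_pos_iff.2 h0)).symm, h1, h2⟩

end MP7ed9c3.Md
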