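import Pool.Agent.Lib.MP_7ed9c3_nt.Md.Spec

/-!
# M10a: a nonnegative analytic function at a point
-/

set_option autoImplicit false

namespace MP7ed9c3.Md

open Filter Topology MeasureTheory Set

/-- a property which holds almost everywhere on an interval and is closed holds everywhere -/
lemma Even_dense {t₀ ρ : ℝ} {p : ℝ → Prop} (hp : ∀ᵐ t : ℝ, |t - t₀| < ρ → p t)
    (ho : IsOpen {t : ℝ | |t - t₀| < ρ ∧ ¬p t}) : ∀ t : ℝ, |t - t₀| < ρ → p t := by
  intro t ht
  by_contra h
  have h1 : (volume {t : ℝ | |t - t₀| < ρ ∧ ¬p t}) = 0 := by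
    rw [ae_iff] at hp
    refine measure_mono_null ?_ hp
    intro s hs h2
    exact hs.2 (h2 hs.1)
  have h2 := ho.measure_eq_zero_iff volume |>.mp h1
  have h3 : t ∈ {t : ℝ | |t - t₀| < ρ ∧ ¬p t} := ⟨ht, h⟩
  rw [h2] at h3
  exact h3


lemma Even_mem {t₀ ρ t : ℝ} : ((t : ℂ) * Complex.I) ∈ Metric.ball ((t₀ : ℂ) * Complex.I) ρ ↔
    |t - t₀| < ρ := by
  rw [Metric.mem_ball, dist_eq_norm]
  have h1 : (t : ℂ) * Complex.I - t₀ * Complex.I = ((t - t₀ : ℝ) : ℂ) * Complex.I := by
    push_cast; ring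
  rw [h1, norm_mul, Complex.norm_I, mul_one, Complex.norm_real, Real.norm_eq_abs]

theorem evenOrder : S_Even := by
  intro t₀ ρ G g hρ hG hg hae
  set z₀ : ℂ := (t₀ : ℂ) * Complex.I with hz₀
  have hline : Continuous fun t : ℝ => (t : ℂ) * Complex.I := by fun_prop
  have hGan : AnalyticAt ℂ G z₀ := hG.analyticAt (Metric.isOpen_ball.mem_nhds (Metric.mem_ball_self hρ))
  -- the interval is open
  have hJo : IsOpen {t : ℝ | |t - t₀| < ρ} := by
    have : Continuous fun t : ℝ => |t - t₀| := by fun_prop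
    exact isOpen_lt this continuous_const
  have hGc : ContinuousOn (fun t : ℝ => G (t * Complex.I)) {t : ℝ | |t - t₀| < ρ} := by
    refine hG.continuousOn.comp hline.continuousOn ?_
    intro t ht
    exact Even_mem.mpr ht
  -- `G` is real and nonnegative on the interval
  have hreal : ∀ t : ℝ, |t - t₀| < ρ → (G (t * Complex.I)).im = 0 ∧ 0 ≤ (G (t * Complex.I)).re := by
    refine Even_dense ?_ ?_
    · filter_upwards [hae] with t ht h
      rw [ht h]
      simp only [Complex.ofReal_im, Complex.ofReal_re]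
      exact ⟨trivial, (hg t).le⟩
    · have hcl : IsClosed {w : ℂ | w.im = 0 ∧ 0 ≤ w.re} :=
        (isClosed_eq Complex.continuous_im continuous_const).inter
          (isClosed_le continuous_const Complex.continuous_re)
      exact hGc.isOpen_inter_preimage hJo hcl.isOpen_compl
  -- `G` is not zero near the point
  have hne : analyticOrderAt G z₀ ≠ ⊤ := by
    intro htop
    rw [analyticOrderAt_eq_top] at htop
    have h1 : ∀ᶠ t : ℝ in 𝓝 t₀, G (t * Complex.I) = 0 :=
      (hline.tendsto t₀).eventually htop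
    have h2 : ∀ᶠ t : ℝ in 𝓝 t₀, |t - t₀| < ρ := hJo.mem_nhds (by simpa using hρ)
    obtain ⟨U, hU, hUo, hUt⟩ := eventually_nhds_iff.mp (h1.and h2)
    have h3 : volume U = 0 := by
      have h4 := ae_iff.mp hae
      refine measure_mono_null ?_ h4
      intro s hs h5
      have h6 := hU s hs
      have h7 := h5 h6.2
      rw [h6.1] at h7
      have h8 : (g s : ℂ) = 0 := h7.symm
      rw [Complex.ofReal_eq_zero] at h8
      exact (hg s).ne' h8
    have h4 := hUo.measure_eq_zero_iff volume |>.mp h3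
    rw [h4] at hUt
    exact hUt
  obtain ⟨G₂, hG₂, hG₂0, hGG⟩ := hGan.analyticOrderAt_ne_top.mp hne
  set m := analyticOrderNatAt G z₀ with hm
  set G₁ : ℂ → ℂ := fun z => Complex.I ^ m * G₂ z with hG₁
  have hG₁an : AnalyticAt ℂ G₁ z₀ := analyticAt_const.mul hG₂
  have hG₁0 : G₁ z₀ ≠ 0 := mul_ne_zero (pow_ne_zero _ Complex.I_ne_zero) hG₂0
  -- a common radius
  obtain ⟨r₁, hr₁, hr₁b⟩ := Metric.eventually_nhds_iff_ball.mp (hGG.and hG₁an.eventually_analyticAt)
  have hfac : ∀ t : ℝ, |t - t₀| < r₁ →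
      G (t * Complex.I) = ((t - t₀ : ℝ) : ℂ) ^ m * G₁ (t * Complex.I) := by
    intro t ht
    have h1 := (hr₁b _ (Even_mem.mpr ht)).1
    rw [h1]
    simp only [hG₁, smul_eq_mul]
    have h2 : (t : ℂ) * Complex.I - z₀ = ((t - t₀ : ℝ) : ℂ) * Complex.I := by
      rw [hz₀]; push_cast; ring
    rw [h2, mul_pow]
    ring
  -- one-sided limits
  have hG₁c : Tendsto (fun t : ℝ => G₁ (t * Complex.I)) (𝓝 t₀) (𝓝 (G₁ z₀)) :=
    hG₁an.continuousAt.tendsto.comp (hline.tendsto t₀)
  have hball : ∀ᶠ t : ℝ in 𝓝 t₀, |t - t₀| < min r₁ ρ := by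
    have : IsOpen {t : ℝ | |t - t₀| < min r₁ ρ} := by
      have : Continuous fun t : ℝ => |t - t₀| := by fun_prop
      exact isOpen_lt this continuous_const
    exact this.mem_nhds (by simpa using ⟨hr₁, hρ⟩)
  have hval : ∀ t : ℝ, |t - t₀| < min r₁ ρ → t ≠ t₀ →
      G₁ (t * Complex.I) = (((G (t * Complex.I)).re / (t - t₀) ^ m : ℝ) : ℂ) := by
    intro t ht htt
    have h1 := hfac t (lt_of_lt_of_le ht (min_le_left _ _))
    have h2 := hreal t (lt_of_lt_of_le ht (min_le_right _ _))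
    have h3 : ((t - t₀ : ℝ) : ℂ) ^ m ≠ 0 := by
      refine pow_ne_zero _ ?_
      rw [Complex.ofReal_ne_zero]
      exact sub_ne_zero.mpr htt
    have h4 : G (t * Complex.I) = (((G (t * Complex.I)).re : ℝ) : ℂ) := by
      apply Complex.ext
      · simp
      · simp [h2.1]
    have h5 : G₁ (t * Complex.I) = G (t * Complex.I) / ((t - t₀ : ℝ) : ℂ) ^ m := by
      rw [eq_div_iff h3, h1]
      ring
    rw [h5]
    conv_lhs => rw [h4]
    push_cast
    rfl
  have hG₁real : (G₁ z₀).im = 0 := by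
    have h1 : Tendsto (fun t : ℝ => (G₁ (t * Complex.I)).im) (𝓝[>] t₀) (𝓝 (G₁ z₀).im) :=
      ((Complex.continuous_im.tendsto _).comp hG₁c).mono_left nhdsWithin_le_nhds
    have h2 : ∀ᶠ t : ℝ in 𝓝[>] t₀, (G₁ (t * Complex.I)).im = 0 := by
      filter_upwards [hball.filter_mono nhdsWithin_le_nhds, self_mem_nhdsWithin] with t ht htt
      rw [hval t ht (ne_of_gt htt)]
      exact Complex.ofReal_im _
    exact tendsto_nhds_unique (h1.congr' h2) tendsto_const_nhds
  have hG₁pos : 0 ≤ (G₁ z₀).re := by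
    have h1 : Tendsto (fun t : ℝ => (G₁ (t * Complex.I)).re) (𝓝[>] t₀) (𝓝 (G₁ z₀).re) :=
      ((Complex.continuous_re.tendsto _).comp hG₁c).mono_left nhdsWithin_le_nhds
    refine ge_of_tendsto h1 ?_
    filter_upwards [hball.filter_mono nhdsWithin_le_nhds, self_mem_nhdsWithin] with t ht htt
    rw [hval t ht (ne_of_gt htt), Complex.ofReal_re]
    have h2 := (hreal t (lt_of_lt_of_le ht (min_le_right _ _))).2
    have h3 : 0 < t - t₀ := sub_pos.mpr htt
    positivity
  have hG₁re : 0 < (G₁ z₀).re := by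
    rcases hG₁pos.lt_or_eq with h | h
    · exact h
    · exfalso
      exact hG₁0 (Complex.ext h.symm hG₁real)
  have hmeven : Even m := by
    by_contra hodd
    rw [Nat.not_even_iff_odd] at hodd
    have h1 : Tendsto (fun t : ℝ => (G₁ (t * Complex.I)).re) (𝓝[<] t₀) (𝓝 (G₁ z₀).re) :=
      ((Complex.continuous_re.tendsto _).comp hG₁c).mono_left nhdsWithin_le_nhds
    have h2 : (G₁ z₀).re ≤ 0 := by
      refine le_of_tendsto h1 ?_
      filter_upwards [hball.filter_mono nhdsWithin_le_nhds, self_mem_nhdsWithin] with t ht htt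
      rw [hval t ht (ne_of_lt htt), Complex.ofReal_re]
      have h2 := (hreal t (lt_of_lt_of_le ht (min_le_right _ _))).2
      have h3 : t - t₀ < 0 := sub_neg.mpr htt
      have h4 : (t - t₀) ^ m < 0 := hodd.pow_neg h3
      exact div_nonpos_of_nonneg_of_nonpos h2 h4.le
    linarith
  obtain ⟨k, hk⟩ := hmeven
  -- the final radius
  have hreev : ∀ᶠ z in 𝓝 z₀, 0 < (G₁ z).re := by
    have h1 : ContinuousAt (fun z => (G₁ z).re) z₀ :=
      Complex.continuous_re.continuousAt.comp hG₁an.continuousAt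
    exact h1.eventually (lt_mem_nhds hG₁re)
  obtain ⟨r₂, hr₂, hr₂b⟩ := Metric.eventually_nhds_iff_ball.mp hreev
  refine ⟨k, min (min r₁ r₂) ρ, G₁, lt_min (lt_min hr₁ hr₂) hρ, min_le_right _ _, ?_, ?_, ?_, ?_⟩
  · intro z hz
    have hz1 : z ∈ Metric.ball z₀ r₁ :=
      Metric.ball_subset_ball ((min_le_left _ _).trans (min_le_left _ _)) hz
    exact (hr₁b z hz1).2.differentiableAt.differentiableWithinAt
  · intro z hz
    exact hr₂b z (Metric.ball_subset_ball ((min_le_left _ _).trans (min_le_right _ _)) hz)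
  · intro t ht
    by_cases htt : t = t₀
    · rw [htt]
      exact hG₁real
    · have h1 : |t - t₀| < min r₁ ρ :=
        lt_of_lt_of_le ht (le_min ((min_le_left _ _).trans (min_le_left _ _)) (min_le_right _ _))
      rw [hval t h1 htt]
      exact Complex.ofReal_im _
  · intro t ht
    have h1 : |t - t₀| < r₁ := lt_of_lt_of_le ht ((min_le_left _ _).trans (min_le_left _ _))
    rw [hfac t h1, hk, two_mul]

end MP7ed9c3.Md
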