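import Pool.Agent.Lib.MP_7ed9c3_nt.Md.Local

/-!
# MP_7ed9c3_nt, part Md: M11, continuation to the left
-/

set_option autoImplicit false

namespace MP7ed9c3.Md

open Filter Topology MeasureTheory

/-- The boundary value is the limit. -/
theorem bdryVal {f Φ : ℂ → ℂ} {t₀ r t : ℝ}
    (hΦ : DifferentiableOn ℂ Φ (Metric.ball (t₀ * Complex.I) r))
    (hΦf : ∀ z ∈ Metric.ball ((t₀ : ℂ) * Complex.I) r, 0 < z.re → Φ z = Complex.exp (f z))
    (ht : |t - t₀| < r) :
    Tendsto (fun x : ℝ => Complex.exp (f ((x : ℂ) + t * Complex.I))) (𝓝[>] 0)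
      (𝓝 (Φ (t * Complex.I))) := by
  have hmem : ((t : ℂ) * Complex.I) ∈ Metric.ball ((t₀ : ℂ) * Complex.I) r := axisBall.2 ht
  have hc : ContinuousAt Φ (t * Complex.I) :=
    (hΦ.differentiableAt (Metric.isOpen_ball.mem_nhds hmem)).continuousAt
  have hpath : Tendsto (fun x : ℝ => (x : ℂ) + t * Complex.I) (𝓝[>] 0) (𝓝 (t * Complex.I)) := by
    have h1 : Continuous (fun x : ℝ => (x : ℂ) + t * Complex.I) := by fun_prop
    have h2 := h1.tendsto 0
    simp only [Complex.ofReal_zero, zero_add] at h2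
    exact h2.mono_left nhdsWithin_le_nhds
  have h1 : Tendsto (fun x : ℝ => Φ ((x : ℂ) + t * Complex.I)) (𝓝[>] 0)
      (𝓝 (Φ (t * Complex.I))) := (hc.tendsto).comp hpath
  refine h1.congr' ?_
  have h4 : ∀ᶠ x : ℝ in 𝓝[>] 0, (x : ℂ) + t * Complex.I ∈
      Metric.ball ((t₀ : ℂ) * Complex.I) r := hpath.eventually (Metric.isOpen_ball.mem_nhds hmem)
  filter_upwards [h4, self_mem_nhdsWithin] with x hx hx0
  have hre : ((x : ℂ) + t * Complex.I).re = x := by simp
  exact hΦf _ hx (by rw [hre]; exact hx0)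

theorem globalExt (h10 : S_Local) : S_Global := by
  intro f D ℓ hE J Ω G hJ hΩ hJΩ hG hae
  have hloc : ∀ t₀ : ℝ, ∃ (r : ℝ) (Φ : ℂ → ℂ), t₀ ∈ J → 0 < r ∧
      (∀ t, |t - t₀| < r → t ∈ J) ∧
      DifferentiableOn ℂ Φ (Metric.ball (t₀ * Complex.I) r) ∧
      (∀ z ∈ Metric.ball ((t₀ : ℂ) * Complex.I) r, 0 < z.re → Φ z = Complex.exp (f z)) ∧
      ∀ z ∈ Metric.ball ((t₀ : ℂ) * Complex.I) r,
        Φ z * (starRingEnd ℂ) (Φ (-(starRingEnd ℂ) z)) = G z := by
    intro t₀
    by_cases ht₀ : t₀ ∈ J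
    · obtain ⟨ε₁, hε₁, hb₁⟩ := Metric.isOpen_iff.1 hΩ _ (hJΩ t₀ ht₀)
      obtain ⟨ε₂, hε₂, hb₂⟩ := Metric.isOpen_iff.1 hJ _ ht₀
      have hJm : ∀ t, |t - t₀| < min ε₁ ε₂ → t ∈ J := by
        intro t ht
        apply hb₂
        rw [Metric.mem_ball, Real.dist_eq]
        exact lt_of_lt_of_le ht (min_le_right _ _)
      obtain ⟨r, Φ, hr, hrρ, hd, hf, hp⟩ := h10 f D ℓ hE t₀ (min ε₁ ε₂) G (lt_min hε₁ hε₂)
        (hG.mono ((Metric.ball_subset_ball (min_le_left _ _)).trans hb₁))
        (by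
          filter_upwards [hae] with t ht htr
          exact ht (hJm t htr))
      exact ⟨r, Φ, fun _ => ⟨hr, fun t ht => hJm t (lt_of_lt_of_le ht hrρ), hd, hf, hp⟩⟩
    · exact ⟨0, 0, fun h => absurd h ht₀⟩
  choose r Φ hrΦ using hloc
  set F : ℂ → ℂ := fun z => if 0 < z.re then Complex.exp (f z) else
    if z.re < 0 then G z / (starRingEnd ℂ) (Complex.exp (f (-(starRingEnd ℂ) z))) else
      Φ z.im z with hF
  have hFpos : ∀ z : ℂ, 0 < z.re → F z = Complex.exp (f z) := by
    intro z hz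
    rw [hF]
    simp only
    rw [if_pos hz]
  have hFneg : ∀ z : ℂ, z.re < 0 →
      F z = G z / (starRingEnd ℂ) (Complex.exp (f (-(starRingEnd ℂ) z))) := by
    intro z hz
    rw [hF]
    simp only
    rw [if_neg (not_lt.mpr hz.le), if_pos hz]
  have hFzero : ∀ z : ℂ, z.re = 0 → F z = Φ z.im z := by
    intro z hz
    rw [hF]
    simp only
    rw [if_neg (by rw [hz]; exact lt_irrefl 0), if_neg (by rw [hz]; exact lt_irrefl 0)]
  have hne : ∀ z : ℂ, (starRingEnd ℂ) (Complex.exp (f (-(starRingEnd ℂ) z))) ≠ 0 := by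
    intro z
    rw [Ne, map_eq_zero]
    exact Complex.exp_ne_zero _
  have hrefre : ∀ z : ℂ, z.re < 0 → 0 < (-(starRingEnd ℂ) z).re := by
    intro z hz
    simp only [Complex.neg_re, Complex.conj_re]
    linarith
  -- equality on balls
  have hball : ∀ t₀ ∈ J, ∀ z ∈ Metric.ball ((t₀ : ℂ) * Complex.I) (r t₀), F z = Φ t₀ z := by
    intro t₀ ht₀ z hz
    obtain ⟨hr, hJm, hd, hf, hp⟩ := hrΦ t₀ ht₀
    rcases lt_trichotomy z.re 0 with h | h | h
    · rw [hFneg z h]
      have h1 := hp z hz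
      rw [hf _ (reflBall hz) (hrefre z h)] at h1
      rw [← h1, mul_div_cancel_right₀ _ (hne z)]
    · rw [hFzero z h]
      have hzI : z = (z.im : ℂ) * Complex.I := by
        apply Complex.ext
        · simp [h]
        · simp
      have hzt : |z.im - t₀| < r t₀ := by
        rw [hzI] at hz
        exact axisBall.1 hz
      have hzJ : z.im ∈ J := hJm _ hzt
      obtain ⟨hr', hJm', hd', hf', hp'⟩ := hrΦ z.im hzJ
      have h1 := bdryVal hd hf hzt
      have h2 := bdryVal (t := z.im) hd' hf' (by simpa using hr')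
      have h3 := tendsto_nhds_unique h2 h1
      rw [← hzI] at h3
      exact h3
    · rw [hFpos z h, hf z hz h]
  refine ⟨F, ?_, hFpos, ?_⟩
  · rintro z (hz | ⟨hz, hzJ⟩ | ⟨hz, hzΩ⟩)
    · have hopen : IsOpen {z : ℂ | 0 < z.re} := isOpen_lt continuous_const Complex.continuous_re
      have h1 : DifferentiableAt ℂ (fun z => Complex.exp (f z)) z :=
        (hE.diff.differentiableAt (hopen.mem_nhds hz)).cexp
      have hev : F =ᶠ[𝓝 z] fun z => Complex.exp (f z) := by
        filter_upwards [hopen.mem_nhds hz] with w hw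
        exact hFpos w hw
      exact (h1.congr_of_eventuallyEq hev).differentiableWithinAt
    · obtain ⟨hr, hJm, hd, hf, hp⟩ := hrΦ z.im hzJ
      have hzI : z = (z.im : ℂ) * Complex.I := by
        apply Complex.ext
        · simp [hz]
        · simp
      have hzb : z ∈ Metric.ball ((z.im : ℂ) * Complex.I) (r z.im) := by
        rw [← hzI]
        exact Metric.mem_ball_self hr
      have h1 : DifferentiableAt ℂ (Φ z.im) z :=
        hd.differentiableAt (Metric.isOpen_ball.mem_nhds hzb)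
      have hev : F =ᶠ[𝓝 z] Φ z.im := by
        filter_upwards [Metric.isOpen_ball.mem_nhds hzb] with w hw
        exact hball z.im hzJ w hw
      exact (h1.congr_of_eventuallyEq hev).differentiableWithinAt
    · have hopen : IsOpen {z : ℂ | z.re < 0} := isOpen_lt Complex.continuous_re continuous_const
      have hopen' : IsOpen {z : ℂ | 0 < z.re} := isOpen_lt continuous_const Complex.continuous_re
      have h1 : DifferentiableAt ℂ (fun z => Complex.exp (f z)) (-(starRingEnd ℂ) z) :=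
        (hE.diff.differentiableAt (hopen'.mem_nhds (hrefre z hz))).cexp
      have h2 := reflDiff (Φ := fun z => Complex.exp (f z)) h1
      have h3 : DifferentiableAt ℂ G z := hG.differentiableAt (hΩ.mem_nhds hzΩ)
      have h4 : DifferentiableAt ℂ
          (fun z => G z / (starRingEnd ℂ) (Complex.exp (f (-(starRingEnd ℂ) z)))) z :=
        h3.div h2 (hne z)
      have hev : F =ᶠ[𝓝 z]
          fun z => G z / (starRingEnd ℂ) (Complex.exp (f (-(starRingEnd ℂ) z))) := by
        filter_upwards [hopen.mem_nhds hz] with w hw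
        exact hFneg w hw
      exact (h4.congr_of_eventuallyEq hev).differentiableWithinAt
  · intro z hz _
    rw [hFneg z hz, div_mul_cancel₀ _ (hne z)]

end MP7ed9c3.Md
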