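import Pool.Agent.Lib.MP_7ed9c3_nt.Md.Spec

/-!
# M9: the primitive of the logarithm at the edge
-/

set_option autoImplicit false

namespace MP7ed9c3.Md

open Filter Topology MeasureTheory

/-- `w (log w - 1)` -/
noncomputable def LogInt_L (w : ℂ) : ℂ := w * (Complex.log w - 1)

lemma LogInt_slit {w : ℂ} (h : 0 ≤ w.re) (h0 : w ≠ 0) : w ∈ Complex.slitPlane := by
  rw [Complex.mem_slitPlane_iff]
  rcases h.lt_or_eq with h1 | h1
  · exact Or.inl h1
  · right
    intro h2
    exact h0 (Complex.ext h1.symm h2)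

lemma LogInt_deriv {w : ℂ} (h : w ∈ Complex.slitPlane) :
    HasDerivAt LogInt_L (Complex.log w) w := by
  have h1 := (hasDerivAt_id w).mul ((Complex.hasDerivAt_log h).sub_const 1)
  have h0 : w ≠ 0 := Complex.slitPlane_ne_zero h
  have h2 : 1 * (Complex.log w - 1) + id w * w⁻¹ = Complex.log w := by
    simp only [id]
    rw [mul_inv_cancel₀ h0]
    ring
  rw [h2] at h1
  exact h1

lemma LogInt_zero : Tendsto LogInt_L (𝓝 0) (𝓝 0) := by
  have hb : ∀ w : ℂ, ‖LogInt_L w‖ ≤ |‖w‖ * Real.log ‖w‖| + (Real.pi + 1) * ‖w‖ := by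
    intro w
    unfold LogInt_L
    rw [norm_mul]
    have h1 : ‖Complex.log w‖ ≤ |Real.log ‖w‖| + Real.pi := by
      have h2 : Complex.log w = ((Real.log ‖w‖ : ℝ) : ℂ) + ((Complex.arg w : ℝ) : ℂ) * Complex.I := by
        apply Complex.ext <;> simp [Complex.log_re, Complex.log_im]
      rw [h2]
      refine (norm_add_le _ _).trans ?_
      rw [norm_mul, Complex.norm_I, mul_one, Complex.norm_real, Complex.norm_real,
        Real.norm_eq_abs, Real.norm_eq_abs]
      exact add_le_add le_rfl (Complex.abs_arg_le_pi w)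
    have h3 : ‖Complex.log w - 1‖ ≤ |Real.log ‖w‖| + Real.pi + 1 := by
      refine (norm_sub_le _ _).trans ?_
      rw [norm_one]
      linarith
    calc ‖w‖ * ‖Complex.log w - 1‖ ≤ ‖w‖ * (|Real.log ‖w‖| + Real.pi + 1) :=
          mul_le_mul_of_nonneg_left h3 (norm_nonneg _)
      _ = |‖w‖ * Real.log ‖w‖| + (Real.pi + 1) * ‖w‖ := by
          rw [abs_mul, abs_of_nonneg (norm_nonneg w)]
          ring
  have hc : Tendsto (fun w : ℂ => |‖w‖ * Real.log ‖w‖| + (Real.pi + 1) * ‖w‖) (𝓝 0) (𝓝 0) := by
    have h1 : Continuous (fun w : ℂ => |‖w‖ * Real.log ‖w‖| + (Real.pi + 1) * ‖w‖) := by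
      have h2 : Continuous (fun w : ℂ => ‖w‖ * Real.log ‖w‖) :=
        Real.continuous_mul_log.comp continuous_norm
      fun_prop
    have h3 := h1.tendsto 0
    simpa using h3
  exact squeeze_zero_norm hb hc

theorem logInt : S_LogInt := by
  intro t₀
  have hre : ∀ z : ℂ, (z - t₀ * Complex.I).re = z.re := by intro z; simp
  refine ⟨fun z => LogInt_L (z - t₀ * Complex.I), ?_, ?_, ?_⟩
  · intro z hz
    have hsub : Continuous fun z : ℂ => z - t₀ * Complex.I := by fun_prop
    by_cases h0 : z - t₀ * Complex.I = 0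
    · have h1 : LogInt_L 0 = 0 := by unfold LogInt_L; simp
      have h2 : Tendsto (fun z => LogInt_L (z - t₀ * Complex.I)) (𝓝 z)
          (𝓝 (LogInt_L (z - t₀ * Complex.I))) := by
        rw [h0, h1]
        refine LogInt_zero.comp ?_
        have := hsub.tendsto z
        rwa [h0] at this
      exact h2.mono_left nhdsWithin_le_nhds
    · have h1 : z - t₀ * Complex.I ∈ Complex.slitPlane :=
        LogInt_slit (by rw [hre]; exact hz) h0
      have h2 : ContinuousAt LogInt_L (z - t₀ * Complex.I) := (LogInt_deriv h1).continuousAt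
      exact (ContinuousAt.comp (f := fun z : ℂ => z - t₀ * Complex.I) h2
        hsub.continuousAt).continuousWithinAt
  · intro z hz
    have h0 : z - t₀ * Complex.I ≠ 0 := by
      intro h
      have := hre z
      rw [h, Complex.zero_re] at this
      linarith
    have h1 : z - t₀ * Complex.I ∈ Complex.slitPlane :=
      LogInt_slit (by rw [hre]; exact hz.le) h0
    have h2 := (LogInt_deriv h1).comp z ((hasDerivAt_id z).sub_const (t₀ * Complex.I))
    rw [mul_one] at h2
    exact h2
  · intro c d hcd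
    have him : ∀ t : ℝ, (LogInt_L ((t : ℂ) * Complex.I - t₀ * Complex.I)).im =
        (t - t₀) * (Real.log (t - t₀) - 1) := by
      intro t
      have h1 : (t : ℂ) * Complex.I - t₀ * Complex.I = ((t - t₀ : ℝ) : ℂ) * Complex.I := by
        push_cast; ring
      rw [h1]
      unfold LogInt_L
      rw [Complex.mul_im]
      simp only [Complex.mul_re, Complex.ofReal_re, Complex.I_re, mul_zero, Complex.ofReal_im,
        Complex.I_im, mul_one, sub_self, zero_mul, Complex.mul_im, zero_add, add_zero,
        Complex.sub_re, Complex.one_re, Complex.log_re]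
      rw [norm_mul, Complex.norm_I, mul_one, Complex.norm_real, Real.norm_eq_abs, Real.log_abs]
    rw [him, him]
    have h1 : ∀ t : ℝ, Real.log |t - t₀| = Real.log (t - t₀) := fun t => Real.log_abs _
    simp_rw [h1]
    rw [intervalIntegral.integral_comp_sub_right (fun t => Real.log t) t₀, integral_log]
    ring

end MP7ed9c3.Md
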