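import Pool.Agent.Lib.MP_7ed9c3_nt.Md.Spec

/-!
# MP_7ed9c3_nt, part Md: M2, the logarithm of an Euler product
-/

set_option autoImplicit false

namespace MP7ed9c3.Md

open Filter Topology MeasureTheory

theorem logU (m1 : S_Series) : S_LogU := by
  intro ι N a good _ C A hN haN haA
  have hC : 0 ≤ C := by
    have := (hN.2 0).2
    have h0 : (0 : ℝ) ≤ ({i | 2 ^ 0 ≤ N i ∧ N i < 2 ^ (0 + 1)}.ncard : ℝ) := Nat.cast_nonneg _
    have h1 := h0.trans this
    simpa using h1
  have hA' : ∀ i, |(a i : ℝ)| ≤ |A| * √(N i) := fun i =>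
    (haA i).trans (mul_le_mul_of_nonneg_right (le_abs_self A) (Real.sqrt_nonneg _))
  obtain ⟨c, hc0, hcB, _, hcS⟩ := groupAll ι N a C |A| hN (abs_nonneg A) hA'
  obtain ⟨d1, _, _⟩ := seriesBoundAll c (C * |A|) hc0 hcB
  obtain ⟨d2, d3⟩ := m1 c (C * |A|) hc0 hcB
  set C₁ : ℝ := 12 * (|A| + 1 / 2) ^ 2 + 1 with hC₁
  have hlog : ∀ i (s : ℂ), 3 / 2 ≤ s.re → eden (N i) (a i) (good i) s ≠ 0 ∧
      ‖a9E N a good i s‖ ≤ C₁ / (N i : ℝ) ^ 2 := fun i s hs =>
    (eulerLog (N i) (a i) (good i) |A| (hN.1 i) (haN i) (hA' i)).1 s hs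
  have hsum := a9_summable sparseSums hN C₁
  set C₂ : ℝ := ∑' i, C₁ / (N i : ℝ) ^ 2 with hC₂
  have hC₂0 : 0 ≤ C₂ := tsum_nonneg fun i => by positivity
  have hre : ∀ z : ℂ, 0 < z.re → 3 / 2 < (3 / 2 + z : ℂ).re := by
    intro z hz
    have : (3 / 2 + z : ℂ).re = 3 / 2 + z.re := by simp
    rw [this]; linarith
  set F : ℂ → ℂ := fun z => ∑' n : ℕ, c n * (n : ℂ) ^ (-z) with hF
  set E : ℂ → ℂ := fun z => ∑' i, a9E N a good i (3 / 2 + z) with hE
  have hEd : DifferentiableOn ℂ E {z | 0 < z.re} := by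
    refine Complex.differentiableOn_tsum_of_summable_norm hsum
      (fun i => B5.diff_a9E hN.1 haN hA' i)
      (isOpen_lt continuous_const Complex.continuous_re) ?_
    intro i z hz
    exact (hlog i _ (hre z hz).le).2
  have hEb : ∀ z : ℂ, 0 < z.re → ‖E z‖ ≤ C₂ := fun z hz =>
    tsum_of_norm_bounded hsum.hasSum fun i => (hlog i _ (hre z hz).le).2
  have hFd : DifferentiableOn ℂ F {z | 0 < z.re} := d1
  set D₁ : ℝ := 2 * (C * |A|) + C₂ with hD₁
  set D₂ : ℝ := 2 * (80 * Real.exp 1 * (C * |A|) ^ 2) + 2 * C₂ ^ 2 with hD₂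
  refine ⟨fun z => F z + E z, max D₁ D₂, hFd.add hEd, ?_, ?_, ?_⟩
  · intro z hz
    obtain ⟨s1, _, s3⟩ := hcS (3 / 2 + z) (hre z hz)
    have hEs : Summable (fun i => a9E N a good i (3 / 2 + z)) :=
      Summable.of_norm_bounded hsum fun i => (hlog i _ (hre z hz).le).2
    have hhs := s1.hasSum.add hEs.hasSum
    have hfun : (fun i => (a i : ℂ) * (N i : ℂ) ^ (-(3 / 2 + z)) + a9E N a good i (3 / 2 + z)) =
        fun i => -Complex.log (eden (N i) (a i) (good i) (3 / 2 + z)) := by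
      funext i
      rw [a9E]; ring
    rw [hfun] at hhs
    have hprod := hhs.cexp
    have hfun2 : (Complex.exp ∘ fun i => -Complex.log (eden (N i) (a i) (good i) (3 / 2 + z))) =
        fun i => (eden (N i) (a i) (good i) (3 / 2 + z))⁻¹ := by
      funext i
      simp only [Function.comp_apply]
      rw [Complex.exp_neg, Complex.exp_log (hlog i _ (hre z hz).le).1]
    rw [hfun2] at hprod
    rw [hprod.tprod_eq, s3]
    have h9 : (3 / 2 + z - 3 / 2 : ℂ) = z := by ring
    rw [h9]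
  · intro z hz hz1
    have e1 := norm_add_le (F z) (E z)
    have e2 := hEb z hz
    have e3 : ‖F z‖ ≤ 2 * (C * |A|) * (1 + Real.log (1 / z.re)) := d2 z hz hz1
    have hl : 0 ≤ Real.log (1 / z.re) := Real.log_nonneg (by rw [le_div_iff₀ hz]; linarith)
    have e4 : C₂ ≤ C₂ * (1 + Real.log (1 / z.re)) := by nlinarith
    have e5 : D₁ * (1 + Real.log (1 / z.re)) ≤ max D₁ D₂ * (1 + Real.log (1 / z.re)) :=
      mul_le_mul_of_nonneg_right (le_max_left _ _) (by linarith)
    have e6 : D₁ * (1 + Real.log (1 / z.re)) = 2 * (C * |A|) * (1 + Real.log (1 / z.re)) +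
        C₂ * (1 + Real.log (1 / z.re)) := by rw [hD₁]; ring
    show ‖F z + E z‖ ≤ _
    linarith
  · intro x T hx hx1
    have hTT : T ≤ T + 1 := by linarith
    have hx' : ∀ t : ℝ, 0 < ((x : ℂ) + t * Complex.I).re := fun t => by simpa using hx
    have hcF := B5.line_cont hFd hx
    have hcE := B5.line_cont hEd hx
    have hle : ∫ t in T..(T + 1), ‖F ((x : ℂ) + t * Complex.I) + E ((x : ℂ) + t * Complex.I)‖ ^ 2 ≤
        ∫ t in T..(T + 1), (2 * ‖F ((x : ℂ) + t * Complex.I)‖ ^ 2 + 2 * C₂ ^ 2) := by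
      refine intervalIntegral.integral_mono_on hTT ?_ ?_ ?_
      · exact ((hcF.add hcE).norm.pow 2).intervalIntegrable _ _
      · exact ((continuous_const.mul (hcF.norm.pow 2)).add
          continuous_const).intervalIntegrable _ _
      · intro t _
        have e1 := norm_add_le (F ((x : ℂ) + t * Complex.I)) (E ((x : ℂ) + t * Complex.I))
        have e2 := hEb _ (hx' t)
        have e3 : ‖F ((x : ℂ) + t * Complex.I) + E ((x : ℂ) + t * Complex.I)‖ ≤
            ‖F ((x : ℂ) + t * Complex.I)‖ + C₂ := by linarith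
        have e4 := norm_nonneg (F ((x : ℂ) + t * Complex.I) + E ((x : ℂ) + t * Complex.I))
        have e5 := pow_le_pow_left₀ e4 e3 2
        nlinarith [sq_nonneg (‖F ((x : ℂ) + t * Complex.I)‖ - C₂)]
    refine le_trans hle (le_trans ?_ (le_max_right D₁ D₂))
    have hii : IntervalIntegrable (fun t : ℝ => 2 * ‖F ((x : ℂ) + t * Complex.I)‖ ^ 2)
        volume T (T + 1) :=
      (continuous_const.mul (hcF.norm.pow 2)).intervalIntegrable _ _
    rw [intervalIntegral.integral_add hii intervalIntegrable_const,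
      intervalIntegral.integral_const_mul, intervalIntegral.integral_const, smul_eq_mul]
    have e6 : ∫ t in T..(T + 1), ‖F ((x : ℂ) + t * Complex.I)‖ ^ 2 ≤
        80 * Real.exp 1 * (C * |A|) ^ 2 := d3 x T hx hx1
    have e7 : (T + 1 - T) * (2 * C₂ ^ 2) = 2 * C₂ ^ 2 := by ring
    rw [e7, hD₂]
    linarith

end MP7ed9c3.Md
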