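import Pool.Agent.Lib.MP_7ed9c3_nt.Md.Spec

/-!
# M4: convergence in the mean at the edge
-/

set_option autoImplicit false

namespace MP7ed9c3.Md

open Filter Topology MeasureTheory

lemma Mean_cont {f : ℂ → ℂ} (hf : DifferentiableOn ℂ f {z | 0 < z.re}) {x : ℝ} (hx : 0 < x) :
    Continuous (fun t : ℝ => f ((x : ℂ) + t * Complex.I)) := by
  have h1 : ContinuousOn f {z | 0 < z.re} := hf.continuousOn
  have h2 : Continuous (fun t : ℝ => (x : ℂ) + t * Complex.I) := by fun_prop
  refine h1.comp_continuous h2 (fun t => ?_)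
  simp [hx]

lemma Mean_sq {f : ℂ → ℂ} {D : ℝ} {ℓ : ℝ → ℝ} (h : Edge f D ℓ) {c d : ℝ} (hcd : c ≤ d) {x : ℝ}
    (hx : 0 < x) (hx1 : x ≤ 1) :
    ∫ t in c..d, ‖f ((x : ℂ) + t * Complex.I)‖ ^ 2 ≤ ⌈d - c⌉₊ * D := by
  have hc : Continuous (fun t : ℝ => ‖f ((x : ℂ) + t * Complex.I)‖ ^ 2) :=
    ((Mean_cont h.diff hx).norm).pow 2
  have key : ∀ n : ℕ, ∫ t in c..(c + n), ‖f ((x : ℂ) + t * Complex.I)‖ ^ 2 ≤ n * D := by
    intro n
    induction n with
    | zero => simp
    | succ n ih =>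
      have h1 := intervalIntegral.integral_add_adjacent_intervals
        (hc.intervalIntegrable c (c + n)) (hc.intervalIntegrable (c + n) (c + n + 1))
        (μ := volume)
      have h2 := h.sq x (c + n) hx hx1
      have h3 : c + ((n + 1 : ℕ) : ℝ) = c + n + 1 := by push_cast; ring
      rw [h3, ← h1]
      push_cast
      linarith
  have hle : d ≤ c + (⌈d - c⌉₊ : ℝ) := by
    have := Nat.le_ceil (d - c)
    linarith
  have h4 : ∫ t in c..d, ‖f ((x : ℂ) + t * Complex.I)‖ ^ 2 ≤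
      ∫ t in c..(c + (⌈d - c⌉₊ : ℝ)), ‖f ((x : ℂ) + t * Complex.I)‖ ^ 2 := by
    refine intervalIntegral.integral_mono_interval le_rfl hcd hle ?_ (hc.intervalIntegrable _ _)
    exact Eventually.of_forall (fun t => by positivity)
  exact h4.trans (key _)

theorem mean : S_Mean := by
  intro f D ℓ h c d hcd
  set B : ℝ := ⌈d - c⌉₊ * D with hB
  set μ : Measure ℝ := volume.restrict (Set.Ioc c d) with hμ
  let u : ℝ → ℝ → ℝ := fun x t => (f ((x : ℂ) + t * Complex.I)).re
  have huc : ∀ x : ℝ, 0 < x → Continuous (u x) := fun x hx =>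
    Complex.continuous_re.comp (Mean_cont h.diff hx)
  -- square bound
  have husq : ∀ x : ℝ, 0 < x → x ≤ 1 → ∫ t in c..d, u x t ^ 2 ≤ B := by
    intro x hx hx1
    refine le_trans ?_ (Mean_sq h hcd hx hx1)
    refine intervalIntegral.integral_mono_on hcd ?_ ?_ ?_
    · exact ((huc x hx).pow 2).intervalIntegrable _ _
    · exact (((Mean_cont h.diff hx).norm).pow 2).intervalIntegrable _ _
    · intro t _
      have := Complex.abs_re_le_norm (f ((x : ℂ) + t * Complex.I))
      have h0 := abs_nonneg (f ((x : ℂ) + t * Complex.I)).re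
      calc u x t ^ 2 = |u x t| ^ 2 := (sq_abs _).symm
        _ ≤ _ := pow_le_pow_left₀ (abs_nonneg _) this 2
  have hB0 : 0 ≤ B := by
    refine le_trans ?_ (husq 1 one_pos le_rfl)
    exact intervalIntegral.integral_nonneg hcd (fun t _ => by positivity)
  -- sequence
  have hseq : ∀ n : ℕ, 0 < (1 / ((n : ℝ) + 1)) ∧ (1 / ((n : ℝ) + 1)) ≤ 1 := fun n => by
    constructor
    · positivity
    · rw [div_le_one (by positivity)]
      have : (0 : ℝ) ≤ n := Nat.cast_nonneg n
      linarith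
  have hseqt : Tendsto (fun n : ℕ => 1 / ((n : ℝ) + 1)) atTop (𝓝[>] 0) := by
    rw [tendsto_nhdsWithin_iff]
    exact ⟨tendsto_one_div_add_atTop_nhds_zero_nat, Eventually.of_forall (fun n => (hseq n).1)⟩
  have hlimn : ∀ᵐ t : ℝ, Tendsto (fun n : ℕ => u (1 / ((n : ℝ) + 1)) t) atTop (𝓝 (ℓ t)) := by
    filter_upwards [h.lim] with t ht
    exact ht.comp hseqt
  have hmeas : AEStronglyMeasurable ℓ volume :=
    aestronglyMeasurable_of_tendsto_ae atTop
      (fun n => (huc _ (hseq n).1).aestronglyMeasurable) hlimn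
  have hmeas' : AEStronglyMeasurable ℓ μ := hmeas.restrict
  -- Fatou
  have hfat : ∫⁻ t, ENNReal.ofReal (ℓ t ^ 2) ∂μ ≤ ENNReal.ofReal B := by
    have h1 : ∀ᵐ t ∂μ, Tendsto (fun n : ℕ => ENNReal.ofReal (u (1 / ((n : ℝ) + 1)) t ^ 2)) atTop
        (𝓝 (ENNReal.ofReal (ℓ t ^ 2))) := by
      filter_upwards [ae_restrict_of_ae hlimn] with t ht
      exact (ENNReal.continuous_ofReal.tendsto _).comp (ht.pow 2)
    have h2 : ∫⁻ t, ENNReal.ofReal (ℓ t ^ 2) ∂μ =
        ∫⁻ t, liminf (fun n : ℕ => ENNReal.ofReal (u (1 / ((n : ℝ) + 1)) t ^ 2)) atTop ∂μ := by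
      refine lintegral_congr_ae ?_
      filter_upwards [h1] with t ht
      exact ht.liminf_eq.symm
    rw [h2]
    refine le_trans (lintegral_liminf_le' (fun n => ?_)) ?_
    · exact (((huc _ (hseq n).1).pow 2).measurable.ennreal_ofReal).aemeasurable
    · refine liminf_le_of_le (by isBoundedDefault) (fun b hb => ?_)
      obtain ⟨n, hn⟩ := hb.exists
      refine hn.trans ?_
      rw [← ofReal_integral_eq_lintegral_ofReal]
      · refine ENNReal.ofReal_le_ofReal ?_
        have := husq _ (hseq n).1 (hseq n).2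
        rwa [intervalIntegral.integral_of_le hcd] at this
      · exact ((((huc _ (hseq n).1).pow 2).intervalIntegrable c d).1)
      · exact Eventually.of_forall (fun t => by positivity)
  have hsqi : Integrable (fun t => ℓ t ^ 2) μ := by
    refine ⟨hmeas'.pow 2, ?_⟩
    rw [hasFiniteIntegral_iff_ofReal (Eventually.of_forall (fun t => by positivity))]
    exact hfat.trans_lt ENNReal.ofReal_lt_top
  have hsqB : ∫ t, ℓ t ^ 2 ∂μ ≤ B := by
    rw [integral_eq_lintegral_of_nonneg_ae (Eventually.of_forall (fun t => by positivity))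
      hsqi.aestronglyMeasurable]
    exact ENNReal.toReal_le_of_le_ofReal hB0 hfat
  have hli : Integrable ℓ μ := by
    refine Integrable.mono' ((integrable_const (1 : ℝ)).add hsqi) hmeas' ?_
    refine Eventually.of_forall (fun t => ?_)
    rw [Real.norm_eq_abs]
    show |ℓ t| ≤ 1 + ℓ t ^ 2
    nlinarith [sq_abs (ℓ t), sq_nonneg (|ℓ t| - 1 / 2)]
  have hlii : IntervalIntegrable ℓ volume c d :=
    (intervalIntegrable_iff_integrableOn_Ioc_of_le hcd).2 hli
  refine ⟨hlii, ?_⟩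
  -- the difference
  have hui : ∀ x : ℝ, 0 < x → Integrable (u x) μ := fun x hx =>
    ((huc x hx).intervalIntegrable c d).1
  have hui2 : ∀ x : ℝ, 0 < x → Integrable (fun t => u x t ^ 2) μ := fun x hx =>
    (((huc x hx).pow 2).intervalIntegrable c d).1
  have hdi : ∀ x : ℝ, 0 < x → Integrable (fun t => |u x t - ℓ t|) μ := fun x hx =>
    ((hui x hx).sub hli).abs
  have hbd : ∀ m : ℝ, 0 < m → ∀ x : ℝ, 0 < x → x ≤ 1 →
      ∫ t, |u x t - ℓ t| ∂μ ≤ ∫ t, min |u x t - ℓ t| m ∂μ + 4 * B / m := by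
    intro m hm x hx hx1
    have hmin : Integrable (fun t => min |u x t - ℓ t| m) μ := (hdi x hx).inf (integrable_const m)
    have h2i : Integrable (fun t => (2 * u x t ^ 2 + 2 * ℓ t ^ 2) / m) μ :=
      (((hui2 x hx).const_mul 2).add (hsqi.const_mul 2)).div_const m
    have h1 : ∫ t, |u x t - ℓ t| ∂μ ≤
        ∫ t, (min |u x t - ℓ t| m + (2 * u x t ^ 2 + 2 * ℓ t ^ 2) / m) ∂μ := by
      refine integral_mono (hdi x hx) (hmin.add h2i) (fun t => ?_)
      show |u x t - ℓ t| ≤ min |u x t - ℓ t| m + (2 * u x t ^ 2 + 2 * ℓ t ^ 2) / m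
      set w := |u x t - ℓ t| with hw
      have hw0 : 0 ≤ w := abs_nonneg _
      have hw2 : w ^ 2 ≤ 2 * u x t ^ 2 + 2 * ℓ t ^ 2 := by
        rw [hw, sq_abs]
        nlinarith [sq_nonneg (u x t + ℓ t)]
      rcases le_total w m with hle | hle
      · rw [min_eq_left hle]
        have : 0 ≤ (2 * u x t ^ 2 + 2 * ℓ t ^ 2) / m := by positivity
        linarith
      · rw [min_eq_right hle]
        have h3 : w ≤ (2 * u x t ^ 2 + 2 * ℓ t ^ 2) / m := by
          rw [le_div_iff₀ hm]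
          nlinarith
        linarith
    have h4 : ∫ t, (min |u x t - ℓ t| m + (2 * u x t ^ 2 + 2 * ℓ t ^ 2) / m) ∂μ =
        ∫ t, min |u x t - ℓ t| m ∂μ + (2 * ∫ t, u x t ^ 2 ∂μ + 2 * ∫ t, ℓ t ^ 2 ∂μ) / m := by
      rw [integral_add hmin h2i, integral_div, integral_add ((hui2 x hx).const_mul 2)
        (hsqi.const_mul 2), integral_const_mul, integral_const_mul]
    have h5 : ∫ t, u x t ^ 2 ∂μ ≤ B := by
      have := husq x hx hx1
      rwa [intervalIntegral.integral_of_le hcd] at this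
    have h6 : (2 * ∫ t, u x t ^ 2 ∂μ + 2 * ∫ t, ℓ t ^ 2 ∂μ) / m ≤ 4 * B / m := by
      refine div_le_div_of_nonneg_right ?_ hm.le
      linarith
    linarith
  have hdom : ∀ m : ℝ, 0 < m →
      Tendsto (fun x : ℝ => ∫ t, min |u x t - ℓ t| m ∂μ) (𝓝[>] 0) (𝓝 0) := by
    intro m hm
    have h0 : ∫ t, (0 : ℝ) ∂μ = 0 := by simp
    suffices hs : Tendsto (fun x : ℝ => ∫ t, min |u x t - ℓ t| m ∂μ) (𝓝[>] 0)
        (𝓝 (∫ t, (0 : ℝ) ∂μ)) by rwa [h0] at hs
    refine tendsto_integral_filter_of_dominated_convergence (fun _ => m) ?_ ?_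
      (integrable_const m) ?_
    · filter_upwards [self_mem_nhdsWithin] with x hx
      exact ((hdi x hx).inf (integrable_const m)).aestronglyMeasurable
    · filter_upwards with x
      refine Eventually.of_forall (fun t => ?_)
      rw [Real.norm_eq_abs, abs_of_nonneg (le_min (abs_nonneg _) hm.le)]
      exact min_le_right _ _
    · filter_upwards [ae_restrict_of_ae h.lim] with t ht
      have h1 : Tendsto (fun x : ℝ => |u x t - ℓ t|) (𝓝[>] 0) (𝓝 0) := by
        have := (ht.sub_const (ℓ t)).abs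
        simpa using this
      have h2 : Tendsto (fun _ : ℝ => m) (𝓝[>] (0 : ℝ)) (𝓝 m) := tendsto_const_nhds
      have h3 := h1.min h2
      rwa [min_eq_left hm.le] at h3
  have hfin : Tendsto (fun x : ℝ => ∫ t, |u x t - ℓ t| ∂μ) (𝓝[>] 0) (𝓝 0) := by
    rw [Metric.tendsto_nhds]
    intro ε hε
    set m : ℝ := 8 * B / ε + 1 with hm
    have hm0 : 0 < m := by positivity
    have hmB : 4 * B / m < ε / 2 + 0 := by
      rw [div_lt_iff₀ hm0, hm]
      have h1 : 8 * B / ε * ε = 8 * B := by field_simp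
      nlinarith
    have h1 := (hdom m hm0).eventually (gt_mem_nhds (show (0 : ℝ) < ε / 2 by linarith))
    have h2 : ∀ᶠ x : ℝ in 𝓝[>] 0, x ≤ 1 :=
      nhdsWithin_le_nhds ((eventually_le_nhds (show (0 : ℝ) < 1 by norm_num)))
    filter_upwards [h1, h2, self_mem_nhdsWithin] with x hx1 hx2 hx3
    have h3 := hbd m hm0 x hx3 hx2
    have h4 : 0 ≤ ∫ t, |u x t - ℓ t| ∂μ := integral_nonneg (fun t => abs_nonneg _)
    rw [Real.dist_eq, sub_zero, abs_of_nonneg h4]
    linarith
  refine hfin.congr (fun x => ?_)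
  rw [intervalIntegral.integral_of_le hcd]

end MP7ed9c3.Md
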