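import Pool.Agent.Lib.MP_7ed9c3_nt.Md.Spec

/-!
# MP_7ed9c3_nt, part Md: M12, the modulus criterion
-/

set_option autoImplicit false

namespace MP7ed9c3.Md

open NumberField IsDedekindDomain Filter Topology MeasureTheory

theorem negI_mul (t : ℝ) : -Complex.I * ((t : ℂ) * Complex.I) = t := by
  have h : -Complex.I * ((t : ℂ) * Complex.I) = -(Complex.I * Complex.I) * t := by ring
  rw [h, Complex.I_mul_I]
  ring

theorem modTo_of_conv {K : Type} [Field K] [NumberField K]
    {M : HeightOneSpectrum (𝓞 K) → WeierstrassCurve (𝓞 K)} {t : ℝ} {l : ℂ}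
    (h : ConvTo M t l) : ModTo M t ((‖l‖ ^ 2 : ℝ) : ℂ) := by
  have h1 : Tendsto (fun x : ℕ => ‖∏ᶠ v ∈ {v : HeightOneSpectrum (𝓞 K) | nm v ≤ x},
    (locDen (M v) v (3 / 2 + t * Complex.I))⁻¹‖ ^ 2) atTop (𝓝 (‖l‖ ^ 2)) :=
    (Filter.Tendsto.norm h).pow 2
  exact (Complex.continuous_ofReal.tendsto _).comp h1

theorem modulus (h3 : S_EdgeCurve) (h11 : S_Global) : S_Modulus := by
  intro K _ _ E hEl M hM
  obtain ⟨f, D, ℓ, hE, hprod, hconv⟩ := h3 K E hEl M hM
  have part1 : ∀ (J : Set ℝ) (Ω : Set ℂ) (H : ℂ → ℂ), IsOpen J → IsOpen Ω →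
      (∀ t ∈ J, (t : ℂ) ∈ Ω) →
      DifferentiableOn ℂ H Ω → (∀ᵐ t : ℝ, t ∈ J → ModTo M t (H t)) →
      ∃ F : ℂ → ℂ,
        DifferentiableOn ℂ F {s | 3 / 2 < s.re ∨ (s.re = 3 / 2 ∧ s.im ∈ J) ∨
          (s.re < 3 / 2 ∧ -Complex.I * (s - 3 / 2) ∈ Ω)} ∧
        (∀ s : ℂ, 3 / 2 < s.re →
          F s = ∏' v : HeightOneSpectrum (𝓞 K), (locDen (M v) v s)⁻¹) ∧
        ∀ s : ℂ, s.re < 3 / 2 → -Complex.I * (s - 3 / 2) ∈ Ω →
          F s * (starRingEnd ℂ) (∏' v : HeightOneSpectrum (𝓞 K),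
            (locDen (M v) v (3 - (starRingEnd ℂ) s))⁻¹) = H (-Complex.I * (s - 3 / 2)) := by
    intro J Ω H hJ hΩ hJΩ hH hae
    have hΩ' : IsOpen {z : ℂ | -Complex.I * z ∈ Ω} := hΩ.preimage (by fun_prop)
    obtain ⟨Φ, hΦd, hΦf, hΦp⟩ := h11 f D ℓ hE J {z : ℂ | -Complex.I * z ∈ Ω}
      (fun z => H (-Complex.I * z)) hJ hΩ'
      (fun t ht => by
        show -Complex.I * ((t : ℂ) * Complex.I) ∈ Ω
        rw [negI_mul]
        exact hJΩ t ht)
      (hH.comp (by fun_prop) (fun z hz => hz))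
      (by
        filter_upwards [hae, hconv] with t ht hct htJ
        obtain ⟨l, hl0, hlℓ, hlc, -⟩ := hct
        have h1 := tendsto_nhds_unique (ht htJ) (modTo_of_conv hlc)
        show H (-Complex.I * ((t : ℂ) * Complex.I)) = _
        rw [negI_mul, h1, hlℓ, ← Real.exp_nat_mul]
        push_cast
        ring_nf)
    have hsre : ∀ s : ℂ, (s - 3 / 2).re = s.re - 3 / 2 := fun s => by simp
    have hsim : ∀ s : ℂ, (s - 3 / 2).im = s.im := fun s => by simp
    refine ⟨fun s => Φ (s - 3 / 2), ?_, ?_, ?_⟩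
    · refine hΦd.comp (by fun_prop) ?_
      rintro s (hs | ⟨hs, hsJ⟩ | ⟨hs, hsΩ⟩)
      · left
        rw [hsre]; linarith
      · right; left
        rw [hsre, hsim]
        exact ⟨by linarith, hsJ⟩
      · right; right
        rw [hsre]
        exact ⟨by linarith, hsΩ⟩
    · intro s hs
      have h1 : 0 < (s - 3 / 2).re := by rw [hsre]; linarith
      show Φ (s - 3 / 2) = _
      rw [hΦf _ h1, ← hprod _ h1]
      have h2 : (3 / 2 + (s - 3 / 2) : ℂ) = s := by ring
      rw [h2]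
    · intro s hs hsΩ
      have h1 : (s - 3 / 2).re < 0 := by rw [hsre]; linarith
      have h2 := hΦp _ h1 hsΩ
      have h3 : 0 < (-(starRingEnd ℂ) (s - 3 / 2)).re := by
        rw [Complex.neg_re, Complex.conj_re]; linarith
      rw [← hprod _ h3] at h2
      have h4 : (3 / 2 + -(starRingEnd ℂ) (s - 3 / 2) : ℂ) = 3 - (starRingEnd ℂ) s := by
        rw [map_sub]
        have h5 : (starRingEnd ℂ) (3 / 2 : ℂ) = 3 / 2 := by
          rw [map_div₀, map_ofNat, map_ofNat]
        rw [h5]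
        ring
      rw [h4] at h2
      exact h2
  refine ⟨part1, ?_, ?_⟩
  · rintro ⟨F, hF, hFp⟩
    have hconjF : Differentiable ℂ (fun z => (starRingEnd ℂ) (F (3 / 2 + Complex.I *
        (starRingEnd ℂ) z))) := by
      intro z
      have h1 : DifferentiableAt ℂ (fun w => F (3 / 2 + Complex.I * w)) ((starRingEnd ℂ) z) := by
        apply DifferentiableAt.comp ((starRingEnd ℂ) z) (f := fun w : ℂ => 3 / 2 + Complex.I * w)
        · exact hF _
        · fun_prop
      exact differentiableAt_conj_conj_iff.2 h1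
    refine ⟨fun z => F (3 / 2 + Complex.I * z) * (starRingEnd ℂ) (F (3 / 2 + Complex.I *
        (starRingEnd ℂ) z)), ?_, ?_⟩
    · exact (hF.comp (by fun_prop : Differentiable ℂ fun z : ℂ => 3 / 2 + Complex.I * z)).mul hconjF
    · filter_upwards [hconv] with t ht
      obtain ⟨l, hl0, hlℓ, hlc, hlt⟩ := ht
      have h1 : Tendsto (fun x : ℝ => F (3 / 2 + ((x : ℂ) + t * Complex.I))) (𝓝[>] 0)
          (𝓝 (F (3 / 2 + t * Complex.I))) := by
        have h2 : Continuous fun x : ℝ => F (3 / 2 + ((x : ℂ) + t * Complex.I)) :=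
          hF.continuous.comp (by fun_prop)
        have h3 := h2.tendsto 0
        rw [Complex.ofReal_zero, zero_add] at h3
        exact h3.mono_left nhdsWithin_le_nhds
      have h4 : Tendsto (fun x : ℝ => F (3 / 2 + ((x : ℂ) + t * Complex.I))) (𝓝[>] 0) (𝓝 l) := by
        refine hlt.congr' ?_
        filter_upwards [self_mem_nhdsWithin] with x hx
        have hx' : 0 < x := hx
        have h5 : 0 < ((x : ℂ) + t * Complex.I).re := by simpa using hx'
        rw [← hprod _ h5]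
        refine (hFp _ ?_).symm
        have h6 : (3 / 2 + ((x : ℂ) + t * Complex.I)).re = 3 / 2 + x := by simp
        rw [h6]; linarith
      have h5 := tendsto_nhds_unique h4 h1
      have h6 := modTo_of_conv hlc
      have h7 : ((‖l‖ ^ 2 : ℝ) : ℂ) = F (3 / 2 + Complex.I * t) *
          (starRingEnd ℂ) (F (3 / 2 + Complex.I * (starRingEnd ℂ) (t : ℂ))) := by
        rw [Complex.conj_ofReal, mul_comm Complex.I, ← h5, Complex.mul_conj,
          Complex.normSq_eq_norm_sq]
      rw [h7] at h6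
      exact h6
  · rintro ⟨H, hH, hae⟩
    obtain ⟨F, hFd, hFp, -⟩ := part1 Set.univ Set.univ H isOpen_univ isOpen_univ
      (fun _ _ => Set.mem_univ _) hH.differentiableOn (by
        filter_upwards [hae] with t ht _
        exact ht)
    refine ⟨F, ?_, hFp⟩
    rw [← differentiableOn_univ]
    refine hFd.mono ?_
    intro s _
    rcases lt_trichotomy s.re (3 / 2) with h | h | h
    · exact Or.inr (Or.inr ⟨h, Set.mem_univ _⟩)
    · exact Or.inr (Or.inl ⟨h, Set.mem_univ _⟩)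
    · exact Or.inl h

end MP7ed9c3.Md
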