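import Pool.Agent.Lib.MP_7ed9c3_nt.Md.Spec

/-!
# M7: a line is removable for continuous functions
-/

set_option autoImplicit false

namespace MP7ed9c3.Md

open Filter Topology MeasureTheory Set
open scoped Interval

/-- the boundary integral of a rectangle -/
noncomputable def Paste_bd (Φ : ℂ → ℂ) (a b c d : ℝ) : ℂ :=
  (∫ x : ℝ in a..b, Φ (x + c * Complex.I)) - (∫ x : ℝ in a..b, Φ (x + d * Complex.I)) +
    Complex.I • (∫ y : ℝ in c..d, Φ (b + y * Complex.I)) -
    Complex.I • (∫ y : ℝ in c..d, Φ (a + y * Complex.I))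

lemma Paste_bd_zero {Φ : ℂ → ℂ} {U : Set ℂ} (hc : ContinuousOn Φ U)
    (hd : ∀ z ∈ U, z.re ≠ 0 → DifferentiableAt ℂ Φ z) {a b c d : ℝ}
    (hU : [[a, b]] ×ℂ [[c, d]] ⊆ U) (h0 : (0 : ℝ) ∉ Ioo (min a b) (max a b)) :
    Paste_bd Φ a b c d = 0 := by
  have h := Complex.integral_boundary_rect_eq_zero_of_continuousOn_of_differentiableOn Φ
    ⟨a, c⟩ ⟨b, d⟩ (hc.mono hU) ?_
  · exact h
  · intro z hz
    have hz' : z.re ∈ Ioo (min a b) (max a b) ∧ z.im ∈ Ioo (min c d) (max c d) := hz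
    refine (hd z (hU ?_) ?_).differentiableWithinAt
    · exact ⟨Ioo_subset_Icc_self hz'.1, Ioo_subset_Icc_self hz'.2⟩
    · intro h1
      rw [h1] at hz'
      exact h0 hz'.1

lemma Paste_horiz {Φ : ℂ → ℂ} {U : Set ℂ} (hc : ContinuousOn Φ U) {a b c d : ℝ}
    (hU : [[a, b]] ×ℂ [[c, d]] ⊆ U) {a' b' e : ℝ} (ha : a' ∈ [[a, b]]) (hb : b' ∈ [[a, b]])
    (he : e ∈ [[c, d]]) :
    IntervalIntegrable (fun x : ℝ => Φ (x + e * Complex.I)) volume a' b' := by
  refine ContinuousOn.intervalIntegrable ?_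
  refine hc.comp (by fun_prop) ?_
  intro x hx
  refine hU ?_
  rw [Complex.mem_reProdIm]
  have h1 : ((x : ℂ) + e * Complex.I).re = x := by simp
  have h2 : ((x : ℂ) + e * Complex.I).im = e := by simp
  rw [h1, h2]
  exact ⟨(uIcc_subset_uIcc ha hb) hx, he⟩

theorem paste : S_Paste := by
  intro t₀ r Φ hc hd
  rw [← Complex.isConservativeOn_and_continuousOn_iff_isDifferentiableOn Metric.isOpen_ball]
  refine ⟨?_, hc⟩
  intro z w hzw
  rw [← add_eq_zero_iff_eq_neg, Complex.wedgeIntegral_add_wedgeIntegral_eq]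
  have hU : [[z.re, w.re]] ×ℂ [[z.im, w.im]] ⊆ Metric.ball ((t₀ : ℂ) * Complex.I) r := hzw
  change Paste_bd Φ z.re w.re z.im w.im = 0
  by_cases h0 : (0 : ℝ) ∈ Ioo (min z.re w.re) (max z.re w.re)
  · have h0' : (0 : ℝ) ∈ [[z.re, w.re]] := Ioo_subset_Icc_self h0
    have hl : [[z.re, 0]] ×ℂ [[z.im, w.im]] ⊆ Metric.ball ((t₀ : ℂ) * Complex.I) r := by
      refine subset_trans ?_ hU
      intro x hx
      exact ⟨(uIcc_subset_uIcc left_mem_uIcc h0') hx.1, hx.2⟩
    have hr : [[0, w.re]] ×ℂ [[z.im, w.im]] ⊆ Metric.ball ((t₀ : ℂ) * Complex.I) r := by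
      refine subset_trans ?_ hU
      intro x hx
      exact ⟨(uIcc_subset_uIcc h0' right_mem_uIcc) hx.1, hx.2⟩
    have e1 := Paste_bd_zero hc hd hl (by
      intro h
      rcases le_total z.re 0 with h1 | h1
      · rw [max_eq_right h1] at h; exact lt_irrefl _ h.2
      · rw [min_eq_right h1] at h; exact lt_irrefl _ h.1)
    have e2 := Paste_bd_zero hc hd hr (by
      intro h
      rcases le_total 0 w.re with h1 | h1
      · rw [min_eq_left h1] at h; exact lt_irrefl _ h.1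
      · rw [max_eq_left h1] at h; exact lt_irrefl _ h.2)
    have e3 : Paste_bd Φ z.re w.re z.im w.im =
        Paste_bd Φ z.re 0 z.im w.im + Paste_bd Φ 0 w.re z.im w.im := by
      unfold Paste_bd
      rw [← intervalIntegral.integral_add_adjacent_intervals
        (Paste_horiz hc hU left_mem_uIcc h0' left_mem_uIcc)
        (Paste_horiz hc hU h0' right_mem_uIcc left_mem_uIcc),
        ← intervalIntegral.integral_add_adjacent_intervals
        (Paste_horiz hc hU left_mem_uIcc h0' right_mem_uIcc)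
        (Paste_horiz hc hU h0' right_mem_uIcc right_mem_uIcc)]
      ring
    rw [e3, e1, e2, add_zero]
  · exact Paste_bd_zero hc hd hU h0

end MP7ed9c3.Md
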