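import Pool.Agent.Lib.MP_7ed9c3_nt.Md.Spec

/-!
# M5: primitives on the right half-plane
-/

set_option autoImplicit false

namespace MP7ed9c3.Md

open Filter Topology

lemma Prim_re {n : ℕ} {z : ℂ} (hz : z ∈ Metric.ball (n : ℂ) n) : 0 < z.re := by
  rw [Metric.mem_ball, dist_eq_norm] at hz
  have h1 := Complex.abs_re_le_norm (z - n)
  rw [Complex.sub_re, Complex.natCast_re] at h1
  have h2 := (abs_lt.mp (lt_of_le_of_lt h1 hz)).1
  linarith

lemma Prim_sub {n m : ℕ} (h : n ≤ m) : Metric.ball (n : ℂ) n ⊆ Metric.ball (m : ℂ) m := by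
  refine Metric.ball_subset_ball' ?_
  rw [dist_eq_norm]
  have h1 : ((n : ℂ) - m) = -(((m - n : ℕ) : ℝ) : ℂ) := by
    rw [Nat.cast_sub h]
    push_cast
    ring
  rw [h1, norm_neg, Complex.norm_real, Real.norm_eq_abs, abs_of_nonneg (Nat.cast_nonneg _),
    Nat.cast_sub h]
  linarith

lemma Prim_exists {z : ℂ} (hz : 0 < z.re) : ∃ n : ℕ, 1 ≤ n ∧ z ∈ Metric.ball (n : ℂ) n := by
  obtain ⟨n, hn⟩ := exists_nat_gt (‖z‖ ^ 2 / z.re + 1)
  have h0 : 0 ≤ ‖z‖ ^ 2 / z.re := by positivity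
  have hn0 : (1 : ℝ) < n := by linarith
  have hn1 : ‖z‖ ^ 2 < n * z.re := by
    rw [← div_lt_iff₀ hz]
    linarith
  refine ⟨n, ?_, ?_⟩
  · have : (1 : ℝ) ≤ n := hn0.le
    exact_mod_cast this
  · rw [Metric.mem_ball, dist_eq_norm]
    have h1 : ‖z - n‖ ^ 2 < (n : ℝ) ^ 2 := by
      rw [Complex.sq_norm, Complex.normSq_apply] at hn1 ⊢
      simp only [Complex.sub_re, Complex.sub_im, Complex.natCast_re, Complex.natCast_im, sub_zero]
      nlinarith
    exact lt_of_pow_lt_pow_left₀ 2 (Nat.cast_nonneg _) h1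

lemma Prim_one {n : ℕ} (hn : 1 ≤ n) : (1 : ℂ) ∈ Metric.ball (n : ℂ) n := by
  have h1 : (1 : ℝ) ≤ n := by exact_mod_cast hn
  rw [Metric.mem_ball, dist_eq_norm]
  have h2 : ((1 : ℂ) - n) = (((1 : ℝ) - n : ℝ) : ℂ) := by push_cast; ring
  rw [h2, Complex.norm_real, Real.norm_eq_abs, abs_of_nonpos (by linarith)]
  linarith

theorem prim : S_Prim := by
  classical
  intro f hf
  have hP : ∀ n : ℕ, ∃ g : ℂ → ℂ, g 1 = 0 ∧ ∀ x ∈ Metric.ball (n : ℂ) n, HasDerivAt g (f x) x := by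
    intro n
    have h1 : DifferentiableOn ℂ f (Metric.ball (n : ℂ) n) := hf.mono fun z hz => Prim_re hz
    exact h1.isExactOn_ball.with_val_at 1 0
  choose P hP1 hPd using hP
  have huniq : ∀ n m : ℕ, 1 ≤ n → n ≤ m → ∀ z ∈ Metric.ball (n : ℂ) n, P n z = P m z := by
    intro n m hn hnm z hz
    have hd : ∀ x ∈ Metric.ball (n : ℂ) n, HasDerivAt (fun w => P n w - P m w) 0 x := by
      intro x hx
      have h1 := (hPd n x hx).sub (hPd m x (Prim_sub hnm hx))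
      rwa [sub_self] at h1
    have h2 := Metric.isOpen_ball.is_const_of_deriv_eq_zero (convex_ball _ _).isPreconnected
      (fun x hx => (hd x hx).differentiableAt.differentiableWithinAt)
      (fun x hx => (hd x hx).deriv) hz (Prim_one hn)
    simp only [hP1, sub_self] at h2
    exact sub_eq_zero.mp h2
  refine ⟨fun z => if h : ∃ n : ℕ, 1 ≤ n ∧ z ∈ Metric.ball (n : ℂ) n then P (Nat.find h) z else 0, ?_⟩
  intro z hz
  obtain ⟨m, hm, hzm⟩ := Prim_exists hz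
  have hev : (fun z => if h : ∃ n : ℕ, 1 ≤ n ∧ z ∈ Metric.ball (n : ℂ) n then P (Nat.find h) z else 0)
      =ᶠ[𝓝 z] P m := by
    filter_upwards [Metric.isOpen_ball.mem_nhds hzm] with w hw
    have hex : ∃ n : ℕ, 1 ≤ n ∧ w ∈ Metric.ball (n : ℂ) n := ⟨m, hm, hw⟩
    rw [dif_pos hex]
    have h1 := Nat.find_spec hex
    exact huniq _ m h1.1 (Nat.find_min' hex ⟨hm, hw⟩) w h1.2
  exact (hPd m z hzm).congr_of_eventuallyEq hev

end MP7ed9c3.Md
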