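import Pool.Agent.Lib.MP_7ed9c3_nt.Md.Spec

/-!
# M8: Schwarz reflection at the imaginary axis
-/

set_option autoImplicit false

namespace MP7ed9c3.Md

open Filter Topology Set

lemma Refl_ball {t₀ r : ℝ} {z : ℂ} (hz : z ∈ Metric.ball ((t₀ : ℂ) * Complex.I) r) :
    -(starRingEnd ℂ) z ∈ Metric.ball ((t₀ : ℂ) * Complex.I) r := by
  rw [Metric.mem_ball, dist_eq_norm] at hz ⊢
  have h1 : -(starRingEnd ℂ) z - (t₀ : ℂ) * Complex.I =
      -(starRingEnd ℂ) (z - (t₀ : ℂ) * Complex.I) := by
    rw [map_sub, map_mul, Complex.conj_I, Complex.conj_ofReal]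
    ring
  rw [h1, norm_neg, Complex.norm_conj]
  exact hz

lemma Refl_re (z : ℂ) : (-(starRingEnd ℂ) z).re = -z.re := by simp

theorem schwarzRefl (h7 : S_Paste) : S_Refl := by
  classical
  intro t₀ r P hPc hPd hPr
  set B := Metric.ball ((t₀ : ℂ) * Complex.I) r with hB
  have hBo : IsOpen B := Metric.isOpen_ball
  set Q : ℂ → ℂ := fun z => (starRingEnd ℂ) (P (-(starRingEnd ℂ) z)) with hQ
  set Φ : ℂ → ℂ := fun z => if 0 ≤ z.re then P z else Q z with hΦ
  -- values on the axis
  have haxis : ∀ z ∈ B, z.re = 0 → Q z = P z := by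
    intro z hz hre
    have h1 : -(starRingEnd ℂ) z = z := by
      apply Complex.ext
      · rw [Refl_re, hre, neg_zero]
      · simp
    simp only [hQ]
    rw [h1]
    have h2 : z = (z.im : ℂ) * Complex.I := by
      apply Complex.ext
      · simp [hre]
      · simp
    have h3 : |z.im - t₀| < r := by
      have h4 := hz
      rw [hB, Metric.mem_ball, dist_eq_norm] at h4
      have h5 := Complex.abs_im_le_norm (z - (t₀ : ℂ) * Complex.I)
      have h6 : (z - (t₀ : ℂ) * Complex.I).im = z.im - t₀ := by simp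
      rw [h6] at h5
      exact lt_of_le_of_lt h5 h4
    have h7 := hPr z.im h3
    rw [← h2] at h7
    rw [Complex.conj_eq_iff_im]
    exact h7
  have hΦP : ∀ z, 0 ≤ z.re → Φ z = P z := by
    intro z hz
    simp only [hΦ]
    rw [if_pos hz]
  have hΦQ : ∀ z ∈ B, z.re ≤ 0 → Φ z = Q z := by
    intro z hzB hz
    rcases hz.lt_or_eq with h | h
    · simp only [hΦ]
      rw [if_neg (not_le.mpr h)]
    · rw [hΦP z h.ge, haxis z hzB h]
  -- continuity on the two halves
  have hcA : ContinuousOn Φ (B ∩ {z | 0 ≤ z.re}) :=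
    hPc.congr fun z hz => hΦP z hz.2
  have hcB : ContinuousOn Φ (B ∩ {z | z.re ≤ 0}) := by
    have h1 : ContinuousOn Q (B ∩ {z | z.re ≤ 0}) := by
      have h2 : ContinuousOn (fun z : ℂ => P (-(starRingEnd ℂ) z)) (B ∩ {z | z.re ≤ 0}) := by
        refine hPc.comp (by
          have : Continuous fun z : ℂ => -(starRingEnd ℂ) z := Complex.continuous_conj.neg
          exact this.continuousOn) ?_
        intro z hz
        refine ⟨Refl_ball hz.1, ?_⟩
        have h3 : z.re ≤ 0 := hz.2
        change 0 ≤ (-(starRingEnd ℂ) z).re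
        rw [Refl_re]
        linarith
      exact Complex.continuous_conj.comp_continuousOn h2
    exact h1.congr fun z hz => hΦQ z hz.1 hz.2
  have hcont : ContinuousOn Φ B := by
    intro z hz
    have hun : B ⊆ (B ∩ {z | 0 ≤ z.re}) ∪ (B ∩ {z | z.re ≤ 0}) := by
      intro w hw
      rcases le_total 0 w.re with h | h
      · exact Or.inl ⟨hw, h⟩
      · exact Or.inr ⟨hw, h⟩
    refine ContinuousWithinAt.mono ?_ hun
    rcases lt_trichotomy z.re 0 with h | h | h
    · refine ContinuousWithinAt.union ?_ (hcB z ⟨hz, h.le⟩)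
      have h1 : z ∉ closure (B ∩ {z | 0 ≤ z.re}) := by
        intro h2
        have h3 : closure (B ∩ {z : ℂ | 0 ≤ z.re}) ⊆ {z : ℂ | 0 ≤ z.re} :=
          closure_minimal inter_subset_right (isClosed_le continuous_const Complex.continuous_re)
        have h4 : 0 ≤ z.re := h3 h2
        linarith
      exact continuousWithinAt_of_notMem_closure h1
    · exact ContinuousWithinAt.union (hcA z ⟨hz, h.ge⟩) (hcB z ⟨hz, h.le⟩)
    · refine ContinuousWithinAt.union (hcA z ⟨hz, h.le⟩) ?_
      have h1 : z ∉ closure (B ∩ {z | z.re ≤ 0}) := by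
        intro h2
        have h3 : closure (B ∩ {z : ℂ | z.re ≤ 0}) ⊆ {z : ℂ | z.re ≤ 0} :=
          closure_minimal inter_subset_right (isClosed_le Complex.continuous_re continuous_const)
        have h4 : z.re ≤ 0 := h3 h2
        linarith
      exact continuousWithinAt_of_notMem_closure h1
  have hdiff : ∀ z ∈ B, z.re ≠ 0 → DifferentiableAt ℂ Φ z := by
    intro z hz hre
    rcases lt_or_gt_of_ne hre with h | h
    · have h1 : DifferentiableAt ℂ P (-(starRingEnd ℂ) z) := by
        refine hPd _ (Refl_ball hz) ?_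
        rw [Refl_re]
        linarith
      have h2 : DifferentiableAt ℂ (fun w => P (-w)) ((starRingEnd ℂ) z) := by
        have h3 : DifferentiableAt ℂ (fun w : ℂ => -w) ((starRingEnd ℂ) z) := by fun_prop
        exact DifferentiableAt.comp (g := P) ((starRingEnd ℂ) z) h1 h3
      have h4 : DifferentiableAt ℂ Q z := by
        have h5 := h2.star_star
        have h6 : star ((starRingEnd ℂ) z) = z := Complex.conj_conj z
        rw [h6] at h5
        exact h5
      refine h4.congr_of_eventuallyEq ?_
      have h7 : {w : ℂ | w.re < 0} ∈ 𝓝 z :=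
        (isOpen_lt Complex.continuous_re continuous_const).mem_nhds h
      filter_upwards [h7, hBo.mem_nhds hz] with w hw hwB
      exact hΦQ w hwB (le_of_lt hw)
    · refine (hPd z hz h).congr_of_eventuallyEq ?_
      have h7 : {w : ℂ | 0 < w.re} ∈ 𝓝 z :=
        (isOpen_lt continuous_const Complex.continuous_re).mem_nhds h
      filter_upwards [h7] with w hw
      exact hΦP w (le_of_lt hw)
  exact ⟨Φ, h7 t₀ r Φ hcont hdiff, fun z _ hre => hΦP z hre⟩

end MP7ed9c3.Md
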