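import Pool.Agent.Lib.MP_7ed9c3_nt.Md.Series
import Pool.Agent.Lib.MP_7ed9c3_nt.Md.LogU
import Pool.Agent.Lib.MP_7ed9c3_nt.Md.EdgeCurve
import Pool.Agent.Lib.MP_7ed9c3_nt.Md.Mean
import Pool.Agent.Lib.MP_7ed9c3_nt.Md.Prim
import Pool.Agent.Lib.MP_7ed9c3_nt.Md.Bdry
import Pool.Agent.Lib.MP_7ed9c3_nt.Md.Paste
import Pool.Agent.Lib.MP_7ed9c3_nt.Md.Refl
import Pool.Agent.Lib.MP_7ed9c3_nt.Md.LogInt
import Pool.Agent.Lib.MP_7ed9c3_nt.Md.Even
import Pool.Agent.Lib.MP_7ed9c3_nt.Md.Local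
import Pool.Agent.Lib.MP_7ed9c3_nt.Md.Global
import Pool.Agent.Lib.MP_7ed9c3_nt.Md.Modulus

/-!
# MP_7ed9c3_nt, part Md: assembly
-/

set_option autoImplicit false

namespace MP7ed9c3.Md

theorem seriesAll : S_Series := series

theorem logUAll : S_LogU := logU seriesAll

theorem edgeCurveAll : S_EdgeCurve := edgeCurve logUAll

theorem reflAll : S_Refl := schwarzRefl paste

theorem bdryAll : S_Bdry := bdry mean prim

theorem localAll : S_Local := localExt bdryAll reflAll logInt evenOrder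

theorem globalAll : S_Global := globalExt localAll

theorem modulusAll : S_Modulus := modulus edgeCurveAll globalAll

end MP7ed9c3.Md
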