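import Pool.Agent.Lib.MP_7ed9c3_nt.Md.Spec

/-!
# MP_7ed9c3_nt, part Md: M10, local continuation
-/

set_option autoImplicit false

namespace MP7ed9c3.Md

open Filter Topology MeasureTheory

/-- The reflected function is differentiable. -/
theorem reflDiff {Φ : ℂ → ℂ} {z : ℂ} (h : DifferentiableAt ℂ Φ (-(starRingEnd ℂ) z)) :
    DifferentiableAt ℂ (fun z => (starRingEnd ℂ) (Φ (-(starRingEnd ℂ) z))) z := by
  have h1 : DifferentiableAt ℂ (fun w => Φ (-w)) ((starRingEnd ℂ) z) :=
    DifferentiableAt.comp ((starRingEnd ℂ) z) (f := fun w : ℂ => -w) h differentiableAt_id.neg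
  exact differentiableAt_conj_conj_iff.2 h1

theorem reflBall {t₀ r : ℝ} {z : ℂ} (h : z ∈ Metric.ball ((t₀ : ℂ) * Complex.I) r) :
    -(starRingEnd ℂ) z ∈ Metric.ball ((t₀ : ℂ) * Complex.I) r := by
  rw [Metric.mem_ball, dist_eq_norm] at h ⊢
  have h1 : -(starRingEnd ℂ) z - (t₀ : ℂ) * Complex.I =
      -(starRingEnd ℂ) (z - (t₀ : ℂ) * Complex.I) := by
    simp only [map_sub, map_mul, Complex.conj_ofReal, Complex.conj_I]
    ring
  rw [h1, norm_neg, RCLike.norm_conj]
  exact h

theorem axisBall {t₀ r t : ℝ} : ((t : ℂ) * Complex.I) ∈ Metric.ball ((t₀ : ℂ) * Complex.I) r ↔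
    |t - t₀| < r := by
  rw [Metric.mem_ball, dist_eq_norm, ← sub_mul, norm_mul, Complex.norm_I, mul_one,
    ← Complex.ofReal_sub, Complex.norm_real, Real.norm_eq_abs]

/-- Almost all implies frequently. -/
theorem aeFreq {p : ℝ → Prop} (h : ∀ᵐ t : ℝ, p t) (t₀ : ℝ) : ∃ᶠ t in 𝓝[>] t₀, p t := by
  intro hcon
  have h1 : {t | ¬ p t} ∈ 𝓝[>] t₀ := hcon
  rw [mem_nhdsGT_iff_exists_Ioo_subset] at h1
  obtain ⟨u, hu, hsub⟩ := h1
  have h2 : volume (Set.Ioo t₀ u) ≤ volume {t | ¬ p t} := measure_mono hsub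
  have h3 : volume {t | ¬ p t} = 0 := h
  rw [h3, Real.volume_Ioo] at h2
  have h4 : 0 < u - t₀ := sub_pos.mpr hu
  have h5 := ENNReal.ofReal_pos.mpr h4
  exact absurd h2 (not_le.mpr h5)

/-- The value at a boundary point is the limit. -/
theorem bdryNorm {f Φ : ℂ → ℂ} {t₀ r t l : ℝ}
    (hΦ : DifferentiableOn ℂ Φ (Metric.ball (t₀ * Complex.I) r))
    (hΦf : ∀ z ∈ Metric.ball ((t₀ : ℂ) * Complex.I) r, 0 < z.re → Φ z = Complex.exp (f z))
    (ht : |t - t₀| < r)
    (hl : Tendsto (fun x : ℝ => (f ((x : ℂ) + t * Complex.I)).re) (𝓝[>] 0) (𝓝 l)) :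
    ‖Φ (t * Complex.I)‖ = Real.exp l := by
  have hmem : ((t : ℂ) * Complex.I) ∈ Metric.ball ((t₀ : ℂ) * Complex.I) r := axisBall.2 ht
  have hc : ContinuousAt Φ (t * Complex.I) :=
    (hΦ.differentiableAt (Metric.isOpen_ball.mem_nhds hmem)).continuousAt
  have hpath : Tendsto (fun x : ℝ => (x : ℂ) + t * Complex.I) (𝓝[>] 0) (𝓝 (t * Complex.I)) := by
    have h1 : Continuous (fun x : ℝ => (x : ℂ) + t * Complex.I) := by fun_prop
    have h2 := h1.tendsto 0
    simp only [Complex.ofReal_zero, zero_add] at h2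
    exact h2.mono_left nhdsWithin_le_nhds
  have h1 : Tendsto (fun x : ℝ => ‖Φ ((x : ℂ) + t * Complex.I)‖) (𝓝[>] 0)
      (𝓝 ‖Φ (t * Complex.I)‖) := (hc.norm.tendsto).comp hpath
  have h2 : Tendsto (fun x : ℝ => ‖Φ ((x : ℂ) + t * Complex.I)‖) (𝓝[>] 0) (𝓝 (Real.exp l)) := by
    have h3 := (Real.continuous_exp.tendsto l).comp hl
    refine h3.congr' ?_
    have h4 : ∀ᶠ x : ℝ in 𝓝[>] 0, (x : ℂ) + t * Complex.I ∈
        Metric.ball ((t₀ : ℂ) * Complex.I) r := hpath.eventually (Metric.isOpen_ball.mem_nhds hmem)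
    filter_upwards [h4, self_mem_nhdsWithin] with x hx hx0
    have hre : ((x : ℂ) + t * Complex.I).re = x := by simp
    rw [hΦf _ hx (by rw [hre]; exact hx0), Complex.norm_exp]
    rfl
  exact tendsto_nhds_unique h1 h2

theorem localExt (h6 : S_Bdry) (h8 : S_Refl) (h9 : S_LogInt) (h10 : S_Even) : S_Local := by
  intro f D ℓ hE t₀ ρ G hρ hG hae
  obtain ⟨k, r, G₁, hr, hrρ, hG₁d, hG₁pos, hG₁im, hG₁eq⟩ :=
    h10 t₀ ρ G (fun t => Real.exp (2 * ℓ t)) hρ hG (fun t => Real.exp_pos _) hae
  set B : Set ℂ := Metric.ball ((t₀ : ℂ) * Complex.I) r with hB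
  have hBo : IsOpen B := Metric.isOpen_ball
  set q : ℂ → ℂ := fun z => 1 / 2 * Complex.log (G₁ z) with hq
  have hqd : DifferentiableOn ℂ q B := by
    apply DifferentiableOn.const_mul
    exact hG₁d.clog (fun z hz => Or.inl (hG₁pos z hz))
  obtain ⟨Q, hQ⟩ := hqd.isExactOn_ball
  obtain ⟨P, hPc, hPd, hPint⟩ := h6 f D ℓ hE
  obtain ⟨Λ, hΛc, hΛd, hΛint⟩ := h9 t₀
  set P₁ : ℂ → ℂ := fun z => P z - Q z - (k : ℂ) * Λ z with hP₁
  have hQc : ContinuousOn Q B := fun z hz => (hQ z hz).continuousAt.continuousWithinAt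
  have hP₁c : ContinuousOn P₁ (B ∩ {z | 0 ≤ z.re}) := by
    apply ContinuousOn.sub
    · exact (hPc.mono Set.inter_subset_right).sub (hQc.mono Set.inter_subset_left)
    · exact continuousOn_const.mul (hΛc.mono Set.inter_subset_right)
  have hP₁d : ∀ z ∈ B, 0 < z.re →
      HasDerivAt P₁ (f z - q z - (k : ℂ) * Complex.log (z - t₀ * Complex.I)) z := by
    intro z hz hz0
    exact ((hPd z hz0).sub (hQ z hz)).sub ((hΛd z hz0).const_mul _)
  -- the values of ℓ
  have hqre : ∀ t : ℝ, |t - t₀| < r → (q (t * Complex.I)).re =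
      1 / 2 * Real.log (G₁ (t * Complex.I)).re := by
    intro t ht
    have h1 : G₁ (t * Complex.I) = (((G₁ (t * Complex.I)).re : ℝ) : ℂ) := by
      apply Complex.ext
      · simp
      · rw [hG₁im t ht]; simp
    have hpos := hG₁pos _ (axisBall.2 ht)
    rw [hq]
    simp only
    rw [h1, ← Complex.ofReal_log hpos.le]
    simp
  have hℓ : ∀ᵐ t : ℝ, |t - t₀| < r →
      ℓ t = (q (t * Complex.I)).re + k * Real.log |t - t₀| := by
    have hne : ∀ᵐ t : ℝ, t ≠ t₀ := by
      have : volume ({t₀} : Set ℝ) = 0 := Real.volume_singleton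
      rw [ae_iff]
      convert! this using 2
      ext t; simp
    filter_upwards [hae, hne] with t ht htne htr
    have h1 := ht (lt_of_lt_of_le htr hrρ)
    rw [hG₁eq t htr] at h1
    have h2 : G₁ (t * Complex.I) = (((G₁ (t * Complex.I)).re : ℝ) : ℂ) := by
      apply Complex.ext
      · simp
      · rw [hG₁im t htr]; simp
    rw [h2, ← Complex.ofReal_pow, ← Complex.ofReal_mul, Complex.ofReal_inj] at h1
    have hpos := hG₁pos _ (axisBall.2 htr)
    have h3 := congrArg Real.log h1
    have htt : |t - t₀| ≠ 0 := abs_ne_zero.mpr (sub_ne_zero.mpr htne)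
    have h4 : (t - t₀) ^ (2 * k) = |t - t₀| ^ (2 * k) := by
      rw [pow_mul, pow_mul, sq_abs]
    rw [h4, Real.log_mul (pow_ne_zero _ htt) hpos.ne', Real.log_pow, Real.log_exp] at h3
    rw [hqre t htr]
    push_cast at h3
    linarith
  -- the imaginary part on the axis
  have hint : ∀ c d : ℝ, c ≤ d → |c - t₀| < r → |d - t₀| < r →
      (P₁ (d * Complex.I)).im = (P₁ (c * Complex.I)).im := by
    intro c d hcd hc hd
    have hsub : ∀ t ∈ Set.Icc c d, |t - t₀| < r := by
      intro t ht
      rw [abs_lt] at hc hd ⊢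
      exact ⟨by linarith [ht.1], by linarith [ht.2]⟩
    have hQi : (Q (d * Complex.I)).im - (Q (c * Complex.I)).im =
        ∫ t in c..d, (q (t * Complex.I)).re := by
      rw [intervalIntegral.integral_eq_sub_of_hasDerivAt (f := fun t : ℝ => (Q (t * Complex.I)).im)]
      · intro t ht
        rw [Set.uIcc_of_le hcd] at ht
        have h1 := hQ _ (axisBall.2 (hsub t ht))
        have h2 : HasDerivAt (fun t : ℝ => (t : ℂ) * Complex.I) Complex.I t := by
          simpa using (Complex.ofRealCLM.hasDerivAt (x := t)).mul_const Complex.I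
        have h3 : HasDerivAt (fun t : ℝ => Q (t * Complex.I)) (q (t * Complex.I) * Complex.I) t :=
          HasDerivAt.comp t h1 h2
        have h4 : HasDerivAt (fun t : ℝ => (Q (t * Complex.I)).im)
            ((q (t * Complex.I) * Complex.I).im) t :=
          (Complex.imCLM.hasFDerivAt.comp_hasDerivAt t h3)
        have h5 : (q (t * Complex.I) * Complex.I).im = (q (t * Complex.I)).re := by
          simp [Complex.mul_im]
        rw [h5] at h4
        exact h4
      · apply ContinuousOn.intervalIntegrable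
        rw [Set.uIcc_of_le hcd]
        apply Complex.continuous_re.comp_continuousOn
        apply hqd.continuousOn.comp (by fun_prop)
        intro t ht
        exact axisBall.2 (hsub t ht)
    have hℓi : ∫ t in c..d, ℓ t = ∫ t in c..d, ((q (t * Complex.I)).re + k * Real.log |t - t₀|) := by
      apply intervalIntegral.integral_congr_ae
      filter_upwards [hℓ] with t ht hmem
      rw [Set.uIoc_of_le hcd] at hmem
      exact ht (hsub t ⟨hmem.1.le, hmem.2⟩)
    have hlogi : IntervalIntegrable (fun t : ℝ => Real.log |t - t₀|) volume c d := by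
      have h1 : IntervalIntegrable Real.log volume (c - t₀) (d - t₀) :=
        intervalIntegral.intervalIntegrable_log'
      have h2 := h1.comp_sub_right t₀
      simp only [sub_add_cancel] at h2
      refine h2.congr ?_
      intro t _
      simp only [Real.log_abs]
    have hqi : IntervalIntegrable (fun t : ℝ => (q (t * Complex.I)).re) volume c d := by
      apply ContinuousOn.intervalIntegrable
      rw [Set.uIcc_of_le hcd]
      apply Complex.continuous_re.comp_continuousOn
      apply hqd.continuousOn.comp (by fun_prop)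
      intro t ht
      exact axisBall.2 (hsub t ht)
    have hP := hPint c d hcd
    have hΛ := hΛint c d hcd
    rw [hℓi, intervalIntegral.integral_add hqi (hlogi.const_mul _),
      intervalIntegral.integral_const_mul, ← hQi, ← hΛ] at hP
    have e1 : (P₁ (d * Complex.I)).im = (P (d * Complex.I)).im - (Q (d * Complex.I)).im -
        k * (Λ (d * Complex.I)).im := by
      rw [hP₁]; simp
    have e2 : (P₁ (c * Complex.I)).im = (P (c * Complex.I)).im - (Q (c * Complex.I)).im -
        k * (Λ (c * Complex.I)).im := by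
      rw [hP₁]; simp
    rw [e1, e2]
    linarith
  set κ₀ : ℝ := (P₁ (t₀ * Complex.I)).im with hκ₀
  have haxis : ∀ t : ℝ, |t - t₀| < r → (P₁ (t * Complex.I)).im = κ₀ := by
    intro t ht
    have h0 : |t₀ - t₀| < r := by simpa using hr
    rcases le_total t t₀ with h | h
    · exact (hint t t₀ h ht h0).symm
    · exact hint t₀ t h h0 ht
  obtain ⟨Ψ, hΨd, hΨ⟩ := h8 t₀ r (fun z => P₁ z - κ₀ * Complex.I)
    (hP₁c.sub continuousOn_const)
    (fun z hz hz0 => ((hP₁d z hz hz0).differentiableAt).sub_const _)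
    (fun t ht => by
      simp only [Complex.sub_im, Complex.mul_im, Complex.ofReal_re, Complex.I_im, mul_one,
        Complex.ofReal_im, Complex.I_re, mul_zero, add_zero]
      rw [haxis t ht, sub_self])
  set Φ : ℂ → ℂ := fun z => Complex.exp (deriv Ψ z + q z) * (z - t₀ * Complex.I) ^ k with hΦ
  have hΦd : DifferentiableOn ℂ Φ B := by
    apply DifferentiableOn.mul
    · exact ((hΨd.deriv hBo).add hqd).cexp
    · exact ((differentiable_id.sub_const _).pow k).differentiableOn
  have hΦf : ∀ z ∈ B, 0 < z.re → Φ z = Complex.exp (f z) := by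
    intro z hz hz0
    have hev : Ψ =ᶠ[𝓝 z] fun z => P₁ z - κ₀ * Complex.I := by
      have hopen : IsOpen (B ∩ {z : ℂ | 0 < z.re}) :=
        hBo.inter (isOpen_lt continuous_const Complex.continuous_re)
      filter_upwards [hopen.mem_nhds ⟨hz, hz0⟩] with w hw
      exact hΨ w hw.1 (le_of_lt hw.2)
    have hd : deriv Ψ z = f z - q z - (k : ℂ) * Complex.log (z - t₀ * Complex.I) := by
      rw [hev.deriv_eq]
      exact ((hP₁d z hz hz0).sub_const _).deriv
    have hw : z - (t₀ : ℂ) * Complex.I ≠ 0 := by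
      intro h
      have := congrArg Complex.re h
      simp at this
      linarith
    rw [hΦ]
    simp only
    rw [hd]
    have e1 : f z - q z - (k : ℂ) * Complex.log (z - t₀ * Complex.I) + q z =
        f z - (k : ℂ) * Complex.log (z - t₀ * Complex.I) := by ring
    rw [e1, Complex.exp_sub, Complex.exp_nat_mul, Complex.exp_log hw]
    field_simp
  refine ⟨r, Φ, hr, hrρ, hΦd, hΦf, ?_⟩
  -- the product
  set W : ℂ → ℂ := fun z => Φ z * (starRingEnd ℂ) (Φ (-(starRingEnd ℂ) z)) - G z with hW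
  have hWd : DifferentiableOn ℂ W B := by
    intro z hz
    have h1 : DifferentiableAt ℂ Φ z := hΦd.differentiableAt (hBo.mem_nhds hz)
    have h2 : DifferentiableAt ℂ (fun z => (starRingEnd ℂ) (Φ (-(starRingEnd ℂ) z))) z :=
      reflDiff (hΦd.differentiableAt (hBo.mem_nhds (reflBall hz)))
    have h3 : DifferentiableAt ℂ G z :=
      hG.differentiableAt (Metric.isOpen_ball.mem_nhds (Metric.ball_subset_ball hrρ hz))
    exact ((h1.mul h2).sub h3).differentiableWithinAt
  have hWa : AnalyticOnNhd ℂ W B := hWd.analyticOnNhd hBo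
  have hgood : ∀ᵐ t : ℝ, |t - t₀| < r → W (t * Complex.I) = 0 := by
    filter_upwards [hae, hE.lim] with t ht hlim htr
    have h1 := bdryNorm hΦd hΦf htr hlim
    have h2 : -(starRingEnd ℂ) ((t : ℂ) * Complex.I) = t * Complex.I := by
      simp only [map_mul, Complex.conj_ofReal, Complex.conj_I]
      ring
    rw [hW]
    simp only
    rw [h2, Complex.mul_conj, Complex.normSq_eq_norm_sq, h1, ht (lt_of_lt_of_le htr hrρ),
      ← Real.exp_nat_mul]
    push_cast
    ring
  have hfreq : ∃ᶠ z in 𝓝[≠] ((t₀ : ℂ) * Complex.I), W z = 0 := by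
    have h1 := aeFreq hgood t₀
    have hmap : Tendsto (fun t : ℝ => (t : ℂ) * Complex.I) (𝓝[>] t₀)
        (𝓝[≠] ((t₀ : ℂ) * Complex.I)) := by
      apply tendsto_nhdsWithin_of_tendsto_nhds_of_eventually_within
      · have h2 : Continuous (fun t : ℝ => (t : ℂ) * Complex.I) := by fun_prop
        exact (h2.tendsto t₀).mono_left nhdsWithin_le_nhds
      · filter_upwards [self_mem_nhdsWithin] with t ht
        intro h
        have h3 : (t : ℂ) = (t₀ : ℂ) := mul_right_cancel₀ Complex.I_ne_zero h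
        rw [Complex.ofReal_inj] at h3
        exact absurd h3 (ne_of_gt ht)
    apply hmap.frequently
    have h4 : ∀ᶠ t : ℝ in 𝓝[>] t₀, |t - t₀| < r := by
      have : Set.Ioo t₀ (t₀ + r) ∈ 𝓝[>] t₀ := Ioo_mem_nhdsGT (by linarith)
      filter_upwards [this] with t ht
      rw [abs_of_pos (by linarith [ht.1])]
      linarith [ht.2]
    exact (h1.and_eventually h4).mono (fun t ht => ht.1 ht.2)
  have hzero := hWa.eqOn_zero_of_preconnected_of_frequently_eq_zero
    (convex_ball _ _).isPreconnected (Metric.mem_ball_self hr) hfreq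
  intro z hz
  have := hzero hz
  rw [hW] at this
  simp only [Pi.zero_apply] at this
  exact sub_eq_zero.mp this

end MP7ed9c3.Md
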