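import Pool.Agent.Lib.MP_7ed9c3_nt.Md.Spec

/-!
# MP_7ed9c3_nt, part Md: M1, the Dirichlet series near the edge
-/

set_option autoImplicit false

namespace MP7ed9c3.Md

open Filter Topology MeasureTheory

theorem blockLe {c : ℕ → ℂ} {C : ℝ} (hB : BlockBound c C) {x : ℝ} (hx : 0 < x) (k : ℕ) :
    ∑ n ∈ Finset.Ico (2 ^ k) (2 ^ (k + 1)), ‖c n‖ * (n : ℝ) ^ (-x)
      ≤ C * (((2 : ℝ) ^ (-x)) ^ k / (k + 1)) := by
  have h1 : ∀ n ∈ Finset.Ico (2 ^ k) (2 ^ (k + 1)), ‖c n‖ * (n : ℝ) ^ (-x) ≤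
      ‖c n‖ * ((2 : ℝ) ^ (-x)) ^ k := by
    intro n hn
    rw [Finset.mem_Ico] at hn
    refine mul_le_mul_of_nonneg_left ?_ (norm_nonneg _)
    have h2 : ((2 : ℝ) ^ (-x)) ^ k = ((2 : ℝ) ^ k) ^ (-x) := by
      rw [← Real.rpow_natCast, ← Real.rpow_mul (by norm_num), ← Real.rpow_natCast 2 k,
        ← Real.rpow_mul (by norm_num), mul_comm]
    rw [h2]
    refine Real.rpow_le_rpow_of_nonpos (by positivity) ?_ (by linarith)
    exact_mod_cast hn.1
  refine (Finset.sum_le_sum h1).trans ?_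
  rw [← Finset.sum_mul]
  calc (∑ n ∈ Finset.Ico (2 ^ k) (2 ^ (k + 1)), ‖c n‖) * ((2 : ℝ) ^ (-x)) ^ k
      ≤ C / (k + 1) * ((2 : ℝ) ^ (-x)) ^ k :=
        mul_le_mul_of_nonneg_right (hB k) (by positivity)
    _ = C * (((2 : ℝ) ^ (-x)) ^ k / (k + 1)) := by ring

theorem psumLe {c : ℕ → ℂ} {C : ℝ} (hc : c 0 = 0) (hB : BlockBound c C) {x : ℝ} (hx : 0 < x)
    (hx1 : x ≤ 1) (m : ℕ) :
    ∑ n ∈ Finset.range m, ‖c n‖ * (n : ℝ) ^ (-x) ≤ 2 * C * (1 + Real.log (1 / x)) := by
  have hC := B1.nonneg hB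
  have hm : m ≤ 2 ^ m := Nat.lt_two_pow_self.le
  have h1 : ∑ n ∈ Finset.range m, ‖c n‖ * (n : ℝ) ^ (-x) ≤
      ∑ n ∈ Finset.range (2 ^ m), ‖c n‖ * (n : ℝ) ^ (-x) :=
    Finset.sum_le_sum_of_subset_of_nonneg (Finset.range_mono hm) fun n _ _ => by positivity
  refine h1.trans ?_
  rw [B1.range_eq _ (by simp [hc])]
  refine (Finset.sum_le_sum fun k _ => blockLe hB hx k).trans ?_
  rw [← Finset.mul_sum]
  set r : ℝ := (2 : ℝ) ^ (-x) with hr
  have hr1 : r < 1 := B1.rpow_lt hx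
  have hr0 : 0 < r := by positivity
  have hrhalf : 1 / 2 ≤ r := by
    have h2 : (2 : ℝ) ^ (-1 : ℝ) ≤ r :=
      Real.rpow_le_rpow_of_exponent_le (by norm_num) (by linarith)
    rw [Real.rpow_neg_one] at h2
    linarith
  have h2 : r ≤ 1 - x / 2 := by
    have h3 := rpow_one_add_le_one_add_mul_self (s := -(1 / 2)) (by norm_num) hx.le hx1
    have h4 : (1 + -(1 / 2) : ℝ) = 2⁻¹ := by norm_num
    rw [h4, Real.inv_rpow (by norm_num), ← Real.rpow_neg (by norm_num)] at h3
    linarith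
  have hs := Real.hasSum_pow_div_log_of_abs_lt_one (x := r) (by rw [abs_of_pos hr0]; exact hr1)
  have h5 : ∑ k ∈ Finset.range m, r ^ k / ((k : ℝ) + 1) ≤ 2 * (-Real.log (1 - r)) := by
    have h6 : ∑ k ∈ Finset.range m, r ^ (k + 1) / ((k : ℝ) + 1) ≤ -Real.log (1 - r) :=
      sum_le_hasSum _ (fun k _ => by positivity) hs
    have h7 : ∑ k ∈ Finset.range m, r ^ k / ((k : ℝ) + 1) ≤
        ∑ k ∈ Finset.range m, 2 * (r ^ (k + 1) / ((k : ℝ) + 1)) := by
      refine Finset.sum_le_sum fun k _ => ?_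
      rw [← mul_div_assoc]
      refine div_le_div_of_nonneg_right ?_ (by positivity)
      rw [pow_succ]
      have : 0 ≤ r ^ k := by positivity
      nlinarith
    rw [← Finset.mul_sum] at h7
    linarith
  have h8 : -Real.log (1 - r) ≤ 1 + Real.log (1 / x) := by
    have h9 : Real.log (x / 2) ≤ Real.log (1 - r) :=
      Real.log_le_log (by linarith) (by linarith)
    rw [Real.log_div hx.ne' (by norm_num)] at h9
    rw [one_div, Real.log_inv]
    have := Real.log_two_lt_d9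
    linarith
  calc C * ∑ k ∈ Finset.range m, r ^ k / ((k : ℝ) + 1)
      ≤ C * (2 * (1 + Real.log (1 / x))) :=
        mul_le_mul_of_nonneg_left (by linarith) hC
    _ = 2 * C * (1 + Real.log (1 / x)) := by ring

theorem series : S_Series := by
  intro c C hc hB
  constructor
  · intro z hz hz1
    have h1 : ‖∑' n : ℕ, c n * (n : ℂ) ^ (-z)‖ ≤ ∑' n : ℕ, ‖c n‖ * (n : ℝ) ^ (-z.re) :=
      tsum_of_norm_bounded (B1.summ hc hB hz).hasSum fun n => (B1.norm_term hc z n).le
    exact h1.trans (Real.tsum_le_of_sum_range_le (fun n => by positivity) (psumLe hc hB hz hz1))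
  · intro x T hx hx1
    set c' : ℕ → ℂ := fun n => c n * (n : ℂ) ^ (-((T : ℂ) * Complex.I)) with hc'
    have hn : ∀ n : ℕ, ‖c' n‖ = ‖c n‖ := by
      intro n
      rcases Nat.eq_zero_or_pos n with h | h
      · subst h
        rw [hc']
        simp [hc]
      · rw [hc']
        simp only
        rw [norm_mul, Complex.norm_natCast_cpow_of_pos h]
        simp
    have hc0 : c' 0 = 0 := by rw [hc']; simp [hc]
    have hB' : BlockBound c' C := by
      intro k
      simp only [hn]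
      exact hB k
    obtain ⟨hd, -, hm⟩ := seriesBoundAll c' C hc0 hB'
    have hm1 := hm 1 zero_le_one x hx hx1
    rw [one_pow] at hm1
    have hterm : ∀ (u : ℝ) (n : ℕ), c n * (n : ℂ) ^ (-((x : ℂ) + ((u + T : ℝ) : ℂ) * Complex.I)) =
        c' n * (n : ℂ) ^ (-((x : ℂ) + (u : ℂ) * Complex.I)) := by
      intro u n
      rcases Nat.eq_zero_or_pos n with h | h
      · subst h
        rw [hc0, hc, zero_mul, zero_mul]
      · have hn0 : (n : ℂ) ≠ 0 := by exact_mod_cast h.ne'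
        rw [hc']
        simp only
        rw [mul_assoc, ← Complex.cpow_add _ _ hn0]
        congr 2
        push_cast
        ring
    have hshift : ∫ t in T..(T + 1), ‖∑' n : ℕ, c n * (n : ℂ) ^ (-((x : ℂ) + t * Complex.I))‖ ^ 2 =
        ∫ u in (0 : ℝ)..1, ‖∑' n : ℕ, c' n * (n : ℂ) ^ (-((x : ℂ) + u * Complex.I))‖ ^ 2 := by
      have h1 := intervalIntegral.integral_comp_add_right (a := 0) (b := 1) (fun t : ℝ =>
        ‖∑' n : ℕ, c n * (n : ℂ) ^ (-((x : ℂ) + t * Complex.I))‖ ^ 2) T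
      rw [zero_add, add_comm 1 T] at h1
      rw [← h1]
      refine intervalIntegral.integral_congr fun u _ => ?_
      simp only [hterm]
    rw [hshift]
    refine le_trans ?_ hm1
    have hcont : Continuous fun u : ℝ =>
        ‖∑' n : ℕ, c' n * (n : ℂ) ^ (-((x : ℂ) + u * Complex.I))‖ ^ 2 := by
      refine Continuous.pow (Continuous.norm ?_) 2
      exact hd.continuousOn.comp_continuous (by fun_prop) fun t => by
        show 0 < ((x : ℂ) + t * Complex.I).re
        simpa using hx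
    refine intervalIntegral.integral_mono_interval (by norm_num) (by norm_num) le_rfl
      (Eventually.of_forall fun u => by positivity) (hcont.intervalIntegrable _ _)

end MP7ed9c3.Md
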