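import Pool.Agent.Lib.MP_7ed9c3_nt.AllB

/-!
# MP_7ed9c3_nt, part Md: the modulus criterion (statements)

For every elliptic curve over a number field the limit `w(t)` of the Euler product at `3/2 + i t`
exists for almost all `t`.  Theorem: if `|w(t)|² = H(t)` for almost all `t` in an open set `J`, where
`H` is analytic on an open set `Ω ⊇ J`, then `L(E, s)` extends analytically across the segments
`3/2 + i J` to all points `s` to the left of the line with `-i (s - 3/2) ∈ Ω`.  In particular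
`L(E, s)` has an entire continuation if and only if `|w(t)|²` is for almost all `t` the value of an
entire function.

Coordinates: `z = s - 3/2`, the half-plane is `0 < Re z`; `f` is the logarithm of the Euler product.
Every statement is a separate module; the complete proof is in the docstring.
-/

set_option autoImplicit false

namespace MP7ed9c3.Md

open NumberField IsDedekindDomain Filter Topology MeasureTheory

/-- The logarithm `f` of an Euler product near the edge `Re z = 0`; `ℓ t` is the logarithm of the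
absolute value of the limit at `i t`. -/
structure Edge (f : ℂ → ℂ) (D : ℝ) (ℓ : ℝ → ℝ) : Prop where
  diff : DifferentiableOn ℂ f {z | 0 < z.re}
  pt : ∀ z : ℂ, 0 < z.re → z.re ≤ 1 → ‖f z‖ ≤ D * (1 + Real.log (1 / z.re))
  sq : ∀ x T : ℝ, 0 < x → x ≤ 1 → ∫ t in T..(T + 1), ‖f ((x : ℂ) + t * Complex.I)‖ ^ 2 ≤ D
  lim : ∀ᵐ t : ℝ, Tendsto (fun x : ℝ => (f ((x : ℂ) + t * Complex.I)).re) (𝓝[>] 0) (𝓝 (ℓ t))

/-- **M1, the Dirichlet series near the edge, uniformly.**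

Proof.  As in B1.lean.  Let `x = Re z ∈ (0, 1]`, `r = 2^(-x) ∈ [1/2, 1)`.  `‖n^(-z)‖ = n^(-x)`, block `k`
contributes at most `(C/(k+1)) r^k`, and `∑_k r^k/(k+1) = -log(1-r)/r ≤ -2 log(1-r)`
(`Real.hasSum_pow_div_log_of_abs_lt_one`).  `2^(-x) ≤ 1 - x/2` on `[0, 1]` (convexity, in B1.lean), so
`1 - r ≥ x/2` and `-log(1-r) ≤ log(2/x) ≤ 1 + log(1/x)`.  Mean square: with
`c' n = c n n^(-iT)` (the same block masses) `∑ c n n^(-(x + i(T+t))) = ∑ c' n n^(-(x+it))`, so the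
integral is `∫_0^1 ≤ ∫_{-1}^1` for `c'`, at most `80 exp(1) C²` by B1 (`seriesBound`). -/
def S_Series : Prop :=
  ∀ (c : ℕ → ℂ) (C : ℝ), c 0 = 0 → BlockBound c C →
    (∀ z : ℂ, 0 < z.re → z.re ≤ 1 →
      ‖∑' n : ℕ, c n * (n : ℂ) ^ (-z)‖ ≤ 2 * C * (1 + Real.log (1 / z.re))) ∧
    ∀ x T : ℝ, 0 < x → x ≤ 1 →
      ∫ t in T..(T + 1), ‖∑' n : ℕ, c n * (n : ℂ) ^ (-((x : ℂ) + t * Complex.I))‖ ^ 2
        ≤ 80 * Real.exp 1 * C ^ 2

/-- **M2, the logarithm of an Euler product** (from M1).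

Proof.  B5.lean (`eulerExp`) with M1 in place of the last two parts of B1: `f z = F z + E z`,
`F z = ∑' n, c n n^(-z)`, `‖E z‖ ≤ C₂`; `‖f‖² ≤ 2 ‖F‖² + 2 C₂²`. -/
def S_LogU : Prop :=
  ∀ (ι : Type) (N : ι → ℕ) (a : ι → ℤ) (good : ι → Prop) [∀ i, Decidable (good i)] (C A : ℝ),
    Sparse N C → (∀ i, |(a i : ℝ)| ≤ N i) → (∀ i, |(a i : ℝ)| ≤ A * √(N i)) →
    ∃ (f : ℂ → ℂ) (D : ℝ), DifferentiableOn ℂ f {z | 0 < z.re} ∧
      (∀ z : ℂ, 0 < z.re →
        ∏' i, (eden (N i) (a i) (good i) (3 / 2 + z))⁻¹ = Complex.exp (f z)) ∧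
      (∀ z : ℂ, 0 < z.re → z.re ≤ 1 → ‖f z‖ ≤ D * (1 + Real.log (1 / z.re))) ∧
      ∀ x T : ℝ, 0 < x → x ≤ 1 → ∫ t in T..(T + 1), ‖f ((x : ℂ) + t * Complex.I)‖ ^ 2 ≤ D

/-- **M3, the logarithm of the L-function of an elliptic curve** (from M2).

Proof.  As in B6.lean: `|tr (M v) v| ≤ nm v`, `|tr (M v) v| ≤ A √(nm v)` (`B6.trace_const`), `Sparse nm C`
(N1), so M2 gives `f`.  By `Core` (N5, `θ = 1/4`) there is `Z` with `dimH Z < 1`, hence a null set (see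
B6.lean), such that for `t ∉ Z` there is `l ≠ 0` with `Conv`: the partial products converge to `l` and
(Stolz angle `κ = 0`) `exp(f(x + i t)) → l` as `x → 0+`.  Let `ℓ t = log ‖l‖` for such `t` and `0`
otherwise: `Re f(x+it) = log ‖exp f(x+it)‖ → log ‖l‖`. -/
def S_EdgeCurve : Prop :=
  ∀ (K : Type) [Field K] [NumberField K] (E : WeierstrassCurve K), E.IsElliptic →
    ∀ M : HeightOneSpectrum (𝓞 K) → WeierstrassCurve (𝓞 K), (∀ v, IsMinAt E v (M v)) →
    ∃ (f : ℂ → ℂ) (D : ℝ) (ℓ : ℝ → ℝ), Edge f D ℓ ∧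
      (∀ z : ℂ, 0 < z.re →
        ∏' v : HeightOneSpectrum (𝓞 K), (locDen (M v) v (3 / 2 + z))⁻¹ = Complex.exp (f z)) ∧
      ∀ᵐ t : ℝ, ∃ l : ℂ, l ≠ 0 ∧ ‖l‖ = Real.exp (ℓ t) ∧ ConvTo M t l ∧
        Tendsto (fun x : ℝ => Complex.exp (f ((x : ℂ) + t * Complex.I))) (𝓝[>] 0) (𝓝 l)

/-- **M4, convergence in the mean at the edge.**

Proof.  Let `u_x(t) = Re f(x+it)`, `0 < x ≤ 1`; `u_x → ℓ` a.e. on `[c, d]`, `∫_c^d u_x² ≤ D' `
(`D' = D (⌈d - c⌉ + 1)`, sum of unit intervals; in particular `D ≥ 0`).  `ℓ` is a.e. strongly measurable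
as an a.e. limit of the continuous functions `u_{1/n}` (`aestronglyMeasurable_of_tendsto_ae`), and by
Fatou `∫_c^d ℓ² ≤ D'` (`lintegral_liminf_le`), so `ℓ` is integrable on `[c, d]`
(`|ℓ| ≤ 1 + ℓ²`).  For `m > 0` and real `w`: `|w| ≤ min |w| m + w²/m`.  So
`∫_c^d |u_x - ℓ| ≤ ∫_c^d min |u_x - ℓ| m + (1/m) (2 D' + 2 D')`; for fixed `m` the first integral tends
to `0` by dominated convergence.  [Alternatively use `tendsto_Lp_finite_of_tendsto_ae` with uniform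
integrability.] -/
def S_Mean : Prop :=
  ∀ (f : ℂ → ℂ) (D : ℝ) (ℓ : ℝ → ℝ), Edge f D ℓ → ∀ c d : ℝ, c ≤ d →
    IntervalIntegrable ℓ volume c d ∧
    Tendsto (fun x : ℝ => ∫ t in c..d, |(f ((x : ℂ) + t * Complex.I)).re - ℓ t|) (𝓝[>] 0) (𝓝 0)

/-- **M5, primitives on the right half-plane.**

Proof.  For `n ≥ 1` the ball `B_n = ball n n` is contained in the half-plane, contains `1` (for `n ≥ 1`:
`|1 - n| < n`), and `B_n ⊆ B_m` for `n ≤ m`.  `DifferentiableOn.isExactOn_ball`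
(Mathlib/Analysis/Complex/HasPrimitives.lean) gives `P_n` on `B_n` with derivative `f`, and
`IsExactOn.with_val_at` (or subtracting a constant) `P_n 1 = 0`.  `P_m = P_n` on `B_n` for `n ≤ m`
(the difference has derivative `0` on a ball: `IsOpen.is_const_of_deriv_eq_zero` or
`Convex.is_const_of_fderivWithin_eq_zero`).  A point `z` with `Re z > 0` lies in `B_n` iff
`|z|² < 2 n Re z`, true for all large `n`.  Let `P z = P_{n(z)} z`, `n(z)` the least such `n ≥ 1`; near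
`z` it equals `P_m` for a fixed large `m`. -/
def S_Prim : Prop :=
  ∀ f : ℂ → ℂ, DifferentiableOn ℂ f {z | 0 < z.re} →
    ∃ P : ℂ → ℂ, ∀ z : ℂ, 0 < z.re → HasDerivAt P (f z) z

/-- **M6, the primitive at the edge** (from M4, M5).

Proof.  Let `P₀` be the primitive from M5.  For `0 < x < x' ≤ 1` and all `y`:
`‖P₀(x+iy) - P₀(x'+iy)‖ ≤ ∫_x^{x'} D (1 + log(1/ξ)) dξ ≤ ω(x')`,
`ω(x') = D x' (2 + log(1/x'))` (a primitive of `1 + log(1/ξ)` is `ξ (2 + log(1/ξ))`, which is increasing,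
and `D ≥ 0`), `ω → 0` as `x' → 0+`.  So the limit `P(iy)` of `P₀(x+iy)` exists, with
`‖P(iy) - P₀(x+iy)‖ ≤ ω(x)` for all `y` and `0 < x ≤ 1`.  `P = P₀` for `Re z > 0`; for `Re z < 0` let
`P = 0`.  Continuity on `{0 ≤ Re z}` at `iy₀`: for `z = x + iy` near it, `x ≥ 0`, and any
`η ∈ (0, 1]`, `η ≥ x`: `‖P(z) - P(iy₀)‖ ≤ ω(η) + ‖P₀(η+iy) - P₀(η+iy₀)‖ + ω(η)` (up to a factor 2),
and the middle term tends to `0` as `y → y₀` for fixed `η`.  Boundary integral: for `x > 0`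
`P₀(x+id) - P₀(x+ic) = i ∫_c^d f(x+iτ) dτ` (`intervalIntegral.integral_eq_sub_of_hasDerivAt`), so the
imaginary part is `∫_c^d Re f(x+iτ) dτ → ∫_c^d ℓ` by M4 as `x → 0+`. -/
def S_Bdry : Prop :=
  ∀ (f : ℂ → ℂ) (D : ℝ) (ℓ : ℝ → ℝ), Edge f D ℓ →
    ∃ P : ℂ → ℂ, ContinuousOn P {z | 0 ≤ z.re} ∧ (∀ z : ℂ, 0 < z.re → HasDerivAt P (f z) z) ∧
      ∀ c d : ℝ, c ≤ d → (P (d * Complex.I)).im - (P (c * Complex.I)).im = ∫ t in c..d, ℓ t

/-- **M7, a line is removable for continuous functions.**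

Proof.  By Morera (`isConservativeOn_and_continuousOn_iff_isDifferentiableOn` in
Mathlib/Analysis/Complex/HasPrimitives.lean) it is enough that `wedgeIntegral`s agree
(`IsConservativeOn`), i.e. the integral over the boundary of every closed rectangle with sides
parallel to the axes in the ball vanishes.  If the line `Re z = 0` does not meet the interior of the
rectangle this is `Complex.integral_boundary_rect_eq_zero_of_continuousOn_of_differentiableOn`;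
otherwise cut the rectangle along the line into two closed rectangles (the two integrals along the
cut cancel). -/
def S_Paste : Prop :=
  ∀ (t₀ r : ℝ) (Φ : ℂ → ℂ), ContinuousOn Φ (Metric.ball (t₀ * Complex.I) r) →
    (∀ z ∈ Metric.ball ((t₀ : ℂ) * Complex.I) r, z.re ≠ 0 → DifferentiableAt ℂ Φ z) →
    DifferentiableOn ℂ Φ (Metric.ball (t₀ * Complex.I) r)

/-- **M8, Schwarz reflection at the imaginary axis** (from M7).

Proof.  `Φ z = P z` for `Re z ≥ 0` and `Φ z = conj (P (-conj z))` for `Re z < 0` (`z ↦ -conj z` is the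
reflection at the imaginary axis; it maps the ball to itself).  `Φ` is continuous on the ball: both
formulas are continuous on the closed halves and agree for `Re z = 0`, where `-conj z = z` and
`P z` is real.  For `Re z < 0` it is differentiable (`DifferentiableAt.conj_conj` or
`HasDerivAt.conj_conj`-type lemmas, composed with `z ↦ -z`).  M7. -/
def S_Refl : Prop :=
  ∀ (t₀ r : ℝ) (P : ℂ → ℂ),
    ContinuousOn P (Metric.ball (t₀ * Complex.I) r ∩ {z | 0 ≤ z.re}) →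
    (∀ z ∈ Metric.ball ((t₀ : ℂ) * Complex.I) r, 0 < z.re → DifferentiableAt ℂ P z) →
    (∀ t : ℝ, |t - t₀| < r → (P (t * Complex.I)).im = 0) →
    ∃ Φ : ℂ → ℂ, DifferentiableOn ℂ Φ (Metric.ball (t₀ * Complex.I) r) ∧
      ∀ z ∈ Metric.ball ((t₀ : ℂ) * Complex.I) r, 0 ≤ z.re → Φ z = P z

/-- **M9, the primitive of the logarithm at the edge.**

Proof.  `Λ z = (z - i t₀) (log(z - i t₀) - 1)` for `z ≠ i t₀`, `Λ(i t₀) = 0` (automatic).  For
`Re z ≥ 0`, `z ≠ i t₀`, the point `z - i t₀` lies in the slit plane, so `Λ` is analytic there with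
derivative `log(z - i t₀)`.  At `i t₀`: `‖Λ z‖ ≤ ‖w‖ (|log ‖w‖| + π + 1) → 0`, `w = z - i t₀`.  For
`z = i t`, `t ≠ t₀`: `w = i (t - t₀)`, `log w = log |t - t₀| ± i π/2`, so
`Im Λ = (t - t₀)(log |t - t₀| - 1)`; and `∫_{c}^{d} log |τ - t₀| dτ = [(τ - t₀)(log|τ - t₀| - 1)]`
(`integral_log`, translation; `Real.log` is even). -/
def S_LogInt : Prop :=
  ∀ t₀ : ℝ, ∃ Λ : ℂ → ℂ, ContinuousOn Λ {z | 0 ≤ z.re} ∧
    (∀ z : ℂ, 0 < z.re → HasDerivAt Λ (Complex.log (z - t₀ * Complex.I)) z) ∧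
    ∀ c d : ℝ, c ≤ d → (Λ (d * Complex.I)).im - (Λ (c * Complex.I)).im =
      ∫ t in c..d, Real.log |t - t₀|

/-- **M10a, a nonnegative analytic function at a point.**

Proof.  `G` is not identically `0` near `i t₀` (at almost all `t` near `t₀` the value is not `0`), so
`G z = (z - i t₀)^m G₂ z` near `i t₀`, `G₂` analytic, `G₂(i t₀) ≠ 0`
(`AnalyticAt.analyticOrderAt_ne_top`).  Let `G₁ = i^m G₂`, so
`G(i t) = (t - t₀)^m G₁(i t)`.  `G(it)` is real and `≥ 0` for `|t - t₀| < ρ` (continuity; it holds for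
almost all, hence a dense set of `t`).  Letting `t → t₀` from the right, `G₁(i t₀)` is a limit of
nonnegative reals and `≠ 0`, so it is positive; if `m` were odd, from the left it would be a limit of
nonpositive reals.  So `m = 2k`.  Take `r` so small that `G₁` is analytic on the ball with positive
real part.  `G₁(it)` is real for `t ≠ t₀`, and for `t = t₀` as well. -/
def S_Even : Prop :=
  ∀ (t₀ ρ : ℝ) (G : ℂ → ℂ) (g : ℝ → ℝ), 0 < ρ →
    DifferentiableOn ℂ G (Metric.ball (t₀ * Complex.I) ρ) → (∀ t, 0 < g t) →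
    (∀ᵐ t : ℝ, |t - t₀| < ρ → G (t * Complex.I) = (g t : ℂ)) →
    ∃ (k : ℕ) (r : ℝ) (G₁ : ℂ → ℂ), 0 < r ∧ r ≤ ρ ∧
      DifferentiableOn ℂ G₁ (Metric.ball (t₀ * Complex.I) r) ∧
      (∀ z ∈ Metric.ball ((t₀ : ℂ) * Complex.I) r, 0 < (G₁ z).re) ∧
      (∀ t : ℝ, |t - t₀| < r → (G₁ (t * Complex.I)).im = 0) ∧
      ∀ t : ℝ, |t - t₀| < r → G (t * Complex.I) = ((t - t₀ : ℝ) : ℂ) ^ (2 * k) * G₁ (t * Complex.I)

/-- **M10, local continuation** (from M6, M8, M9, M10a).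

Proof.  `G₁, k, r` from M10a with `g t = exp(2 ℓ t)`; `q z = (1/2) log(G₁ z)` is analytic on the ball,
`q(it)` is real, and for almost all `t` with `|t - t₀| < r`:
`exp(2 ℓ t) = |t - t₀|^(2k) exp(2 q(it))`, so `ℓ t = k log |t - t₀| + Re q(it)`.  Let `P` be from M6, `Λ`
from M9, `Q` a primitive of `q` on the ball (`DifferentiableOn.isExactOn_ball`).  `P - Q - k Λ` is
continuous on `ball ∩ {0 ≤ Re z}`, differentiable for `Re z > 0`, and on the axis its imaginary part is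
constant: for `c ≤ d` in `(t₀ - r, t₀ + r)` the increment is
`∫_c^d (ℓ t - Re q(it) - k log|t - t₀|) dt = 0` (`Q(id) - Q(ic) = i ∫_c^d q(it) dt`).  Subtract this
constant times `i` and apply M8: there is `Ψ`, analytic on the ball, equal to it for `Re z ≥ 0`.  For
`Re z > 0`: `Ψ' z = f z - q z - k log(z - i t₀)` (`Ψ` and the function agree near `z`).  So
`Φ z = exp(Ψ' z + q z) (z - i t₀)^k` is analytic on the ball and equals `exp (f z)` for `Re z > 0`
(`exp(k log w) = w^k` for `w ≠ 0`).  The function `z ↦ Φ z * conj (Φ (-conj z)) - G z` is analytic on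
the ball (the reflection maps it to itself), and at `z = i t` for almost all `t`: `Φ(it)` is the limit
of `exp f(x+it)`, so `|Φ(it)|² = exp(2 ℓ t) = G(it)`.  These points accumulate at `i t₀`, so it is
identically `0`. -/
def S_Local : Prop :=
  ∀ (f : ℂ → ℂ) (D : ℝ) (ℓ : ℝ → ℝ), Edge f D ℓ → ∀ (t₀ ρ : ℝ) (G : ℂ → ℂ), 0 < ρ →
    DifferentiableOn ℂ G (Metric.ball (t₀ * Complex.I) ρ) →
    (∀ᵐ t : ℝ, |t - t₀| < ρ → G (t * Complex.I) = (Real.exp (2 * ℓ t) : ℂ)) →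
    ∃ (r : ℝ) (Φ : ℂ → ℂ), 0 < r ∧ r ≤ ρ ∧
      DifferentiableOn ℂ Φ (Metric.ball (t₀ * Complex.I) r) ∧
      (∀ z ∈ Metric.ball ((t₀ : ℂ) * Complex.I) r, 0 < z.re → Φ z = Complex.exp (f z)) ∧
      ∀ z ∈ Metric.ball ((t₀ : ℂ) * Complex.I) r,
        Φ z * (starRingEnd ℂ) (Φ (-(starRingEnd ℂ) z)) = G z

/-- **M11, continuation to the left** (from M10).

Proof.  For `t ∈ J` choose `r_t > 0`, `Φ_t` from M10 for a radius `ρ_t` with `ball (it) ρ_t ⊆ Ω` and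
`(t - ρ_t, t + ρ_t) ⊆ J`.  Let `Φ z = exp (f z)` for `Re z > 0`,
`Φ z = G z / conj (exp (f (-conj z)))` for `Re z < 0`, and `Φ(it) = Φ_t(it)` for `t ∈ J`.  On
`ball (i t₀) r_{t₀}` one has `Φ = Φ_{t₀}`: clear for `Re z > 0`; for `Re z < 0` by the last property of
M10, as `Re(-conj z) > 0`; for `z = i t` both `Φ_t(it)` and `Φ_{t₀}(it)` are the limit of `exp f(x+it)`,
`x → 0+`, by continuity.  So `Φ` is differentiable at the points `i t`, `t ∈ J`, and it is so at the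
other points of the open set. -/
def S_Global : Prop :=
  ∀ (f : ℂ → ℂ) (D : ℝ) (ℓ : ℝ → ℝ), Edge f D ℓ → ∀ (J : Set ℝ) (Ω : Set ℂ) (G : ℂ → ℂ),
    IsOpen J → IsOpen Ω → (∀ t ∈ J, (t : ℂ) * Complex.I ∈ Ω) → DifferentiableOn ℂ G Ω →
    (∀ᵐ t : ℝ, t ∈ J → G (t * Complex.I) = (Real.exp (2 * ℓ t) : ℂ)) →
    ∃ Φ : ℂ → ℂ,
      DifferentiableOn ℂ Φ {z | 0 < z.re ∨ (z.re = 0 ∧ z.im ∈ J) ∨ (z.re < 0 ∧ z ∈ Ω)} ∧
      (∀ z : ℂ, 0 < z.re → Φ z = Complex.exp (f z)) ∧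
      ∀ z : ℂ, z.re < 0 → z ∈ Ω →
        Φ z * (starRingEnd ℂ) (Complex.exp (f (-(starRingEnd ℂ) z))) = G z

/-- The squares of the absolute values of the partial Euler products of `M` at `3/2 + i t`, in the
order of norms, tend to `w`. -/
def ModTo {K : Type} [Field K] [NumberField K]
    (M : HeightOneSpectrum (𝓞 K) → WeierstrassCurve (𝓞 K)) (t : ℝ) (w : ℂ) : Prop :=
  Tendsto (fun x : ℕ => ((‖∏ᶠ v ∈ {v : HeightOneSpectrum (𝓞 K) | nm v ≤ x},
    (locDen (M v) v (3 / 2 + t * Complex.I))⁻¹‖ ^ 2 : ℝ) : ℂ)) atTop (𝓝 w)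

/-- **M12, the modulus criterion** (from M3, M11).

Proof.  `f, D, ℓ` from M3.  (1) For almost all `t ∈ J`: with `l` from M3, `ModTo M t (H t)` and
`ConvTo M t l` give `H t = ‖l‖² = exp(2 ℓ t)` (uniqueness of limits).  Apply M11 with
`G z = H(-i z)`, `Ω' = {z | -i z ∈ Ω}` (open), `-i (i t) = t`; `F s = Φ(s - 3/2)`.  With `z = s - 3/2`:
`-conj z = (3 - conj s) - 3/2`.
(2) `⇐`: (1) with `J = univ`, `Ω = univ`: the set is everything.  `⇒`: `F` entire;
`H z = F(3/2 + i z) conj(F(3/2 + i conj z))` is entire.  For almost all `t`, `l` from M3: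
`F(3/2 + x + it) = exp f(x+it) → l`, so `l = F(3/2+it)` and the partial products have
`‖·‖² → ‖l‖² = H t`. -/
def S_Modulus : Prop :=
  ∀ (K : Type) [Field K] [NumberField K] (E : WeierstrassCurve K), E.IsElliptic →
    ∀ M : HeightOneSpectrum (𝓞 K) → WeierstrassCurve (𝓞 K), (∀ v, IsMinAt E v (M v)) →
    (∀ (J : Set ℝ) (Ω : Set ℂ) (H : ℂ → ℂ), IsOpen J → IsOpen Ω → (∀ t ∈ J, (t : ℂ) ∈ Ω) →
      DifferentiableOn ℂ H Ω → (∀ᵐ t : ℝ, t ∈ J → ModTo M t (H t)) →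
      ∃ F : ℂ → ℂ,
        DifferentiableOn ℂ F {s | 3 / 2 < s.re ∨ (s.re = 3 / 2 ∧ s.im ∈ J) ∨
          (s.re < 3 / 2 ∧ -Complex.I * (s - 3 / 2) ∈ Ω)} ∧
        (∀ s : ℂ, 3 / 2 < s.re →
          F s = ∏' v : HeightOneSpectrum (𝓞 K), (locDen (M v) v s)⁻¹) ∧
        ∀ s : ℂ, s.re < 3 / 2 → -Complex.I * (s - 3 / 2) ∈ Ω →
          F s * (starRingEnd ℂ) (∏' v : HeightOneSpectrum (𝓞 K),
            (locDen (M v) v (3 - (starRingEnd ℂ) s))⁻¹) = H (-Complex.I * (s - 3 / 2))) ∧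
    ((∃ F : ℂ → ℂ, Differentiable ℂ F ∧ ∀ s : ℂ, 3 / 2 < s.re →
        F s = ∏' v : HeightOneSpectrum (𝓞 K), (locDen (M v) v s)⁻¹) ↔
      ∃ H : ℂ → ℂ, Differentiable ℂ H ∧ ∀ᵐ t : ℝ, ModTo M t (H t))

end MP7ed9c3.Md
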